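import Mathlib

/-!
# The pointwise estimate
-/

set_option autoImplicit false
set_option maxSynthPendingDepth 3
set_option linter.unusedSectionVars false

open Metric Set Filter Topology

noncomputable section

namespace Pool.Agent.H24.VD

variable {E : Type} [NormedAddCommGroup E] [NormedSpace ℝ E]

theorem alt_le (A : E [⋀^Fin 2]→L[ℝ] ℝ) (u v : E) : |A ![u, v]| ≤ ‖A‖ * ‖u‖ * ‖v‖ := by
  have h := A.le_opNorm ![u, v]
  rw [Fin.prod_univ_two] at h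
  simpa [mul_assoc] using h

theorem alt_add_right (A : E [⋀^Fin 2]→L[ℝ] ℝ) (u v w : E) :
    A ![u, v + w] = A ![u, v] + A ![u, w] := by
  have h := A.map_update_add ![u, 0] 1 v w
  have e : ∀ z, Function.update ![u, (0 : E)] 1 z = ![u, z] := by
    intro z
    ext i
    fin_cases i <;> simp
  rw [e, e, e] at h
  exact h

theorem pointwise {T τ : E [⋀^Fin 2]→L[ℝ] ℝ} {Jp Jq M : E →L[ℝ] E} {c K h B η : ℝ}
    (hc : 0 < c) (hh : 0 ≤ h) (hB : 1 ≤ B) (hη : 0 ≤ η)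
    (hJp : ‖Jp‖ ≤ B) (hJq : ‖Jq‖ ≤ B) (hM : ‖M - ContinuousLinearMap.id ℝ E‖ ≤ 1 / 2)
    (hR : ‖M.comp Jp - Jq.comp M‖ ≤ η)
    (hpos : ∀ u, c * ‖u‖ ^ 2 ≤ T ![u, Jq u])
    (hcs : ∀ u v, |T ![u, v]| ≤ K * √(T ![u, Jq u]) * √(T ![v, Jq v]) + h * ‖u‖ * ‖v‖)
    (u : E) :
    (c / 8 - (K ^ 2 * B * (η ^ 2 * ‖T‖) + 2 * (η * h) + 4 * B * ‖τ - T‖)) * ‖u‖ ^ 2 ≤
      τ ![M u, M (Jp u)] := by
  obtain ⟨R, hRd⟩ : ∃ R, R = M.comp Jp - Jq.comp M := ⟨_, rfl⟩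
  rw [← hRd] at hR
  have hB0 : 0 < B := by linarith
  have hu := norm_nonneg u
  have e1 : M (Jp u) = Jq (M u) + R u := by
    rw [hRd]
    simp
  have hMu1 : ‖M u‖ ≤ 2 * ‖u‖ := by
    have h1 : M u = (M - ContinuousLinearMap.id ℝ E) u + u := by simp
    have h2 : ‖(M - ContinuousLinearMap.id ℝ E) u‖ ≤ 1 / 2 * ‖u‖ :=
      (ContinuousLinearMap.le_opNorm _ _).trans (by gcongr)
    rw [h1]
    refine (norm_add_le _ _).trans ?_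
    linarith
  have hMu2 : 1 / 2 * ‖u‖ ≤ ‖M u‖ := by
    have h1 : u = M u - (M - ContinuousLinearMap.id ℝ E) u := by simp
    have h2 : ‖(M - ContinuousLinearMap.id ℝ E) u‖ ≤ 1 / 2 * ‖u‖ :=
      (ContinuousLinearMap.le_opNorm _ _).trans (by gcongr)
    have h3 : ‖u‖ ≤ ‖M u‖ + ‖(M - ContinuousLinearMap.id ℝ E) u‖ := by
      conv_lhs => rw [h1]
      exact norm_sub_le _ _
    linarith
  have hRu : ‖R u‖ ≤ η * ‖u‖ := (R.le_opNorm u).trans (by gcongr)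
  have hMJ : ‖M (Jp u)‖ ≤ 2 * (B * ‖u‖) := by
    have h1 : M (Jp u) = (M - ContinuousLinearMap.id ℝ E) (Jp u) + Jp u := by simp
    have h3 : ‖Jp u‖ ≤ B * ‖u‖ := (Jp.le_opNorm u).trans (by gcongr)
    have h2 : ‖(M - ContinuousLinearMap.id ℝ E) (Jp u)‖ ≤ 1 / 2 * ‖Jp u‖ :=
      (ContinuousLinearMap.le_opNorm _ _).trans (by gcongr)
    rw [h1]
    refine (norm_add_le _ _).trans ?_
    nlinarith
  -- the positive term
  obtain ⟨q, hq⟩ : ∃ q, q = T ![M u, Jq (M u)] := ⟨_, rfl⟩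
  obtain ⟨s, hs⟩ : ∃ s, s = T ![R u, Jq (R u)] := ⟨_, rfl⟩
  have hq1 : c * (1 / 4 * ‖u‖ ^ 2) ≤ q := by
    rw [hq]
    refine le_trans ?_ (hpos (M u))
    have : 1 / 4 * ‖u‖ ^ 2 ≤ ‖M u‖ ^ 2 := by nlinarith
    gcongr
  have hq0 : 0 ≤ q := le_trans (by positivity) hq1
  have hs0 : 0 ≤ s := by
    rw [hs]
    exact le_trans (by positivity) (hpos (R u))
  have hs1 : s ≤ ‖T‖ * B * (η ^ 2 * ‖u‖ ^ 2) := by
    rw [hs]
    refine (le_abs_self _).trans ((alt_le T _ _).trans ?_)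
    have h3 : ‖Jq (R u)‖ ≤ B * (η * ‖u‖) := (Jq.le_opNorm _).trans (by gcongr)
    calc ‖T‖ * ‖R u‖ * ‖Jq (R u)‖ ≤ ‖T‖ * (η * ‖u‖) * (B * (η * ‖u‖)) := by gcongr
      _ = _ := by ring
  have h1 : -(1 / 2 * q + 1 / 2 * (K ^ 2 * s) + h * (2 * ‖u‖) * (η * ‖u‖)) ≤ T ![M u, R u] := by
    have h2 := hcs (M u) (R u)
    rw [← hq, ← hs] at h2
    have h3 : K * √q * √s ≤ 1 / 2 * q + 1 / 2 * (K ^ 2 * s) := by
      have e2 : √q ^ 2 = q := Real.sq_sqrt hq0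
      have e3 : √s ^ 2 = s := Real.sq_sqrt hs0
      nlinarith [sq_nonneg (√q - K * √s)]
    have h4 : h * ‖M u‖ * ‖R u‖ ≤ h * (2 * ‖u‖) * (η * ‖u‖) := by gcongr
    have h5 := neg_abs_le (T ![M u, R u])
    linarith
  have h6 : -(‖τ - T‖ * (2 * ‖u‖) * (2 * (B * ‖u‖))) ≤ (τ - T) ![M u, M (Jp u)] := by
    refine le_trans ?_ (neg_abs_le _)
    rw [neg_le_neg_iff]
    refine (alt_le _ _ _).trans ?_
    gcongr
  have h7 : τ ![M u, M (Jp u)] = (τ - T) ![M u, M (Jp u)] + T ![M u, M (Jp u)] := by simp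
  have h8 : T ![M u, M (Jp u)] = q + T ![M u, R u] := by
    rw [e1, alt_add_right, hq]
  rw [h7, h8]
  have h9 : K ^ 2 * s ≤ K ^ 2 * (‖T‖ * B * (η ^ 2 * ‖u‖ ^ 2)) := by gcongr
  have h10 : 0 ≤ K ^ 2 * (‖T‖ * B * (η ^ 2 * ‖u‖ ^ 2)) := by positivity
  nlinarith

end Pool.Agent.H24.VD
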