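import Mathlib

/-!
# Averages and finite convex combinations
-/

set_option autoImplicit false
set_option maxSynthPendingDepth 3
set_option linter.unusedSectionVars false

open Metric Set Filter Topology MeasureTheory

noncomputable section

namespace Pool.Agent.H24.VD

theorem exists_comb {Ξ : Type} [TopologicalSpace Ξ] [CompactSpace Ξ] [MeasurableSpace Ξ]
    [OpensMeasurableSpace Ξ] {μ : Measure Ξ} [IsFiniteMeasure μ] [NeZero μ] {κ : Type} [Fintype κ]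
    {Sp : κ → Type} [∀ j, TopologicalSpace (Sp j)] [∀ j, CompactSpace (Sp j)]
    (G : ∀ j, Ξ → Sp j → ℝ) (hG : ∀ j, Continuous (fun z : Ξ × Sp j => G j z.1 z.2))
    (hpos : ∀ j s, 0 < ∫ ξ, G j ξ s ∂μ) :
    ∃ (m : Type) (_ : Fintype m) (w : m → ℝ) (z : m → Ξ), (∀ i, 0 ≤ w i) ∧ ∑ i, w i = 1 ∧
      ∀ j s, 0 < ∑ i, w i * G j (z i) s := by
  classical
  obtain ⟨Φ, hΦ⟩ : ∃ Φ : Ξ → (j : κ) → C(Sp j, ℝ), Φ = fun ξ j =>
    (ContinuousMap.curry ⟨_, hG j⟩) ξ := ⟨_, rfl⟩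
  have hΦe : ∀ ξ j s, Φ ξ j s = G j ξ s := by
    intro ξ j s
    rw [hΦ]
    rfl
  have hc : Continuous Φ := by
    rw [hΦ]
    exact continuous_pi fun j => (ContinuousMap.curry ⟨_, hG j⟩).continuous
  have hi : Integrable Φ μ := hc.integrable_of_hasCompactSupport (HasCompactSupport.of_compactSpace _)
  have h1 : (⨍ ξ, Φ ξ ∂μ) ∈ closure (convexHull ℝ (range Φ)) := by
    refine (convex_convexHull ℝ _).closure.average_mem isClosed_closure ?_ hi
    exact Eventually.of_forall fun ξ => subset_closure (subset_convexHull ℝ _ (mem_range_self ξ))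
  have hO : IsOpen {f : (j : κ) → C(Sp j, ℝ) | ∀ j s, 0 < f j s} := by
    have : {f : (j : κ) → C(Sp j, ℝ) | ∀ j s, 0 < f j s} =
        ⋂ j, {f : (j : κ) → C(Sp j, ℝ) | ∀ s, 0 < f j s} := by
      ext f
      simp
    rw [this]
    refine isOpen_iInter_of_finite fun j => ?_
    have h2 : IsOpen {g : C(Sp j, ℝ) | MapsTo g univ (Ioi 0)} :=
      ContinuousMap.isOpen_setOfPred_mapsTo isCompact_univ isOpen_Ioi
    have h3 : {f : (j : κ) → C(Sp j, ℝ) | ∀ s, 0 < f j s} =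
        (fun f : (j : κ) → C(Sp j, ℝ) => f j) ⁻¹' {g : C(Sp j, ℝ) | MapsTo g univ (Ioi 0)} := by
      ext f
      simp [MapsTo]
    rw [h3]
    exact h2.preimage (continuous_apply j)
  have hmem : (⨍ ξ, Φ ξ ∂μ) ∈ {f : (j : κ) → C(Sp j, ℝ) | ∀ j s, 0 < f j s} := by
    intro j s
    obtain ⟨L, hL⟩ : ∃ L : ((j : κ) → C(Sp j, ℝ)) →L[ℝ] ℝ, ∀ f, L f = f j s :=
      ⟨(ContinuousMap.evalCLM ℝ s).comp (ContinuousLinearMap.proj j), fun _ => rfl⟩
    rw [← hL, average_eq, map_smul, ← L.integral_comp_comm hi]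
    simp only [hL, hΦe]
    refine smul_pos ?_ (hpos j s)
    rw [inv_pos]
    exact measureReal_univ_pos
  obtain ⟨y, hy1, hy2⟩ := mem_closure_iff.1 h1 _ hO hmem
  obtain ⟨m, hm, w, z, hw0, hw1, hz, hsum⟩ := mem_convexHull_iff_exists_fintype.1 hy2
  choose ξ hξ using hz
  refine ⟨m, hm, w, ξ, hw0, hw1, fun j s => ?_⟩
  have h2 := hy1 j s
  rw [← hsum] at h2
  obtain ⟨L, hL⟩ : ∃ L : ((j : κ) → C(Sp j, ℝ)) →L[ℝ] ℝ, ∀ f, L f = f j s :=
    ⟨(ContinuousMap.evalCLM ℝ s).comp (ContinuousLinearMap.proj j), fun _ => rfl⟩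
  rw [← hL, map_sum] at h2
  refine h2.trans_eq (Finset.sum_congr rfl fun i _ => ?_)
  rw [map_smul, hL, ← hξ i, hΦe, smul_eq_mul]

end Pool.Agent.H24.VD
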