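import Mathlib

/-!
# Averages along a submersion
-/

set_option autoImplicit false
set_option maxSynthPendingDepth 3
set_option linter.unusedSectionVars false

open MeasureTheory Metric Set Filter Topology
open scoped ContDiff ENNReal

noncomputable section

namespace Pool.Agent.H24.VD

variable {E : Type} [NormedAddCommGroup E] [InnerProductSpace ℝ E] [FiniteDimensional ℝ E]
  [MeasurableSpace E] [BorelSpace E]
  {W : Type} [NormedAddCommGroup W] [InnerProductSpace ℝ W] [FiniteDimensional ℝ W]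
  [MeasurableSpace W] [BorelSpace W]

omit [FiniteDimensional ℝ E] [MeasurableSpace E] [BorelSpace E] in
theorem injOn_of_near_id {G : E → E} {G' : E → E →L[ℝ] E} {s : Set E} (hs : Convex ℝ s)
    (hG : ∀ x ∈ s, HasFDerivAt G (G' x) x)
    (hn : ∀ x ∈ s, ‖G' x - ContinuousLinearMap.id ℝ E‖ ≤ 1 / 2) : InjOn G s := by
  intro x hx y hy hxy
  have h1 : ‖(G y - y) - (G x - x)‖ ≤ 1 / 2 * ‖y - x‖ := by
    refine hs.norm_image_sub_le_of_norm_hasFDerivWithin_le (f := fun z => G z - z)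
      (f' := fun z => G' z - ContinuousLinearMap.id ℝ E) ?_ hn hx hy
    intro z hz
    exact ((hG z hz).sub (hasFDerivAt_id z)).hasFDerivWithinAt
  have h2 : (G y - y) - (G x - x) = -(y - x) := by rw [hxy]; abel
  rw [h2, norm_neg] at h1
  have h3 : ‖y - x‖ = 0 := by
    have := norm_nonneg (y - x)
    linarith
  exact (sub_eq_zero.1 (norm_eq_zero.1 h3)).symm

theorem exists_det_bound : ∃ η : ℝ, 0 < η ∧ ∀ A : E →L[ℝ] E,
    ‖A - ContinuousLinearMap.id ℝ E‖ < η → 1 / 2 ≤ |A.det| := by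
  have h1 : Continuous fun A : E →L[ℝ] E => |A.det| := ContinuousLinearMap.continuous_det.abs
  have h2 : ∀ᶠ A : E →L[ℝ] E in 𝓝 (ContinuousLinearMap.id ℝ E), 1 / 2 < |A.det| := by
    refine h1.continuousAt.eventually_const_lt ?_
    have h3 : (ContinuousLinearMap.id ℝ E).det = 1 := by
      rw [ContinuousLinearMap.det]
      exact LinearMap.det_id
    beta_reduce
    rw [h3]
    norm_num
  obtain ⟨η, hη, h⟩ := Metric.eventually_nhds_iff.1 h2
  refine ⟨η, hη, fun A hA => (h ?_).le⟩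
  rwa [dist_eq_norm]

theorem inner_cov {G : E → E} {G' : E → E →L[ℝ] E} {s : Set E} (hs : MeasurableSet s)
    {g : E → ℝ≥0∞} (hG : ∀ x ∈ s, HasFDerivAt G (G' x) x) (hinj : InjOn G s)
    (hdet : ∀ x ∈ s, 1 / 2 ≤ |(G' x).det|) {B : Set E} (hB : MapsTo G s B) :
    ∫⁻ x in s, g (G x) ≤ 2 * ∫⁻ z in B, g z := by
  have h1 := lintegral_image_eq_lintegral_abs_det_fderiv_mul (volume : Measure E) hs
    (fun x hx => (hG x hx).hasFDerivWithinAt) hinj g
  calc ∫⁻ x in s, g (G x) ≤ ∫⁻ x in s, 2 * (ENNReal.ofReal |(G' x).det| * g (G x)) := by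
        refine setLIntegral_mono' hs fun x hx => ?_
        rw [← mul_assoc]
        refine le_mul_of_one_le_left bot_le ?_
        have h2 : (2 : ℝ≥0∞) = ENNReal.ofReal 2 := by simp
        rw [h2, ← ENNReal.ofReal_mul (by norm_num), ENNReal.one_le_ofReal]
        linarith [hdet x hx]
    _ = 2 * ∫⁻ x in s, ENNReal.ofReal |(G' x).det| * g (G x) := by
        rw [lintegral_const_mul' _ _ (by simp)]
    _ = 2 * ∫⁻ z in G '' s, g z := by rw [h1]
    _ ≤ 2 * ∫⁻ z in B, g z := by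
        gcongr
        exact hB.image_subset

/-- the averages of `g ∘ F` over balls of `W`, for a submersion `F`, are bounded by averages
of `g` over balls of `E` -/
theorem dens {F : W → E} {w₀ : W} (hF : ContDiffAt ℝ 1 F w₀) (ι : E →L[ℝ] W)
    (hι : (fderiv ℝ F w₀).comp ι = ContinuousLinearMap.id ℝ E) :
    ∃ ρ C : ℝ, 0 < ρ ∧ 0 < C ∧ ∀ w ∈ ball w₀ ρ, ∀ r : ℝ, 0 < r → r < ρ →
      ContinuousOn (fun ξ => F (w + ξ)) (ball (0 : W) r) ∧
      MapsTo (fun ξ => F (w + ξ)) (ball (0 : W) r) (ball (F w) (C * r)) ∧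
      ∀ g : E → ℝ≥0∞, Measurable g →
      volume (ball (0 : E) r) * ∫⁻ ξ in ball (0 : W) r, g (F (w + ξ)) ≤
        ENNReal.ofReal C * volume (ball (0 : W) r) * ∫⁻ z in ball (F w) (C * r), g z := by
  obtain ⟨η, hη, hdet⟩ := exists_det_bound (E := E)
  -- a neighbourhood on which the derivative is controlled
  have hn : (∞ : WithTop ℕ∞) ≠ 0 := by simp
  have hFn : ∀ᶠ w in 𝓝 w₀, ContDiffAt ℝ 1 F w :=
    hF.eventually (by simp)
  have hcont : ContinuousAt (fun w => (fderiv ℝ F w).comp ι) w₀ := by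
    have h1 : ContinuousAt (fderiv ℝ F) w₀ := (hF.fderiv_right (m := 0) (by simp)).continuousAt
    exact h1.clm_comp continuousAt_const
  have hc2 : ∀ᶠ w in 𝓝 w₀, ‖(fderiv ℝ F w).comp ι - ContinuousLinearMap.id ℝ E‖ <
      min η (1 / 2) := by
    have h1 : ContinuousAt (fun w => ‖(fderiv ℝ F w).comp ι - ContinuousLinearMap.id ℝ E‖) w₀ :=
      (hcont.sub continuousAt_const).norm
    refine h1.eventually_lt_const ?_
    beta_reduce
    rw [hι, sub_self, norm_zero]
    exact lt_min hη (by norm_num)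
  have hc3 : ∀ᶠ w in 𝓝 w₀, ‖fderiv ℝ F w‖ < ‖fderiv ℝ F w₀‖ + 1 := by
    have h1 : ContinuousAt (fderiv ℝ F) w₀ := (hF.fderiv_right (m := 0) (by simp)).continuousAt
    exact h1.norm.eventually_lt_const (by linarith)
  obtain ⟨ρ₀, hρ₀, hball⟩ := Metric.eventually_nhds_iff_ball.1 (hFn.and (hc2.and hc3))
  set L := ‖fderiv ℝ F w₀‖ + 1 with hL
  have hLpos : 0 < L := by positivity
  set a := 1 + ‖ι‖ with ha
  have ha1 : 1 ≤ a := by rw [ha]; linarith [norm_nonneg ι]
  set m := Module.finrank ℝ W with hm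
  set C := 2 * a ^ m + L * (a + ‖ι‖) with hC
  have hCpos : 0 < C := by positivity
  have hden : 0 < 1 + a + ‖ι‖ := by positivity
  obtain ⟨ρ, hρ⟩ : ∃ ρ, ρ = ρ₀ / (1 + a + ‖ι‖) := ⟨_, rfl⟩
  have hρρ₀ : ρ + (a + ‖ι‖) * ρ = ρ₀ := by
    rw [hρ]
    field_simp
    ring
  have hρpos : 0 < ρ := by rw [hρ]; positivity
  refine ⟨ρ, C, hρpos, hCpos, ?_⟩
  intro w hw r hr hrρ
  rw [mem_ball, dist_eq_norm] at hw
  have hι0 : 0 ≤ ‖ι‖ := norm_nonneg ι
  -- points under consideration are in the good ball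
  have hmem : ∀ ξ ∈ ball (0 : W) (a * r), ∀ s ∈ ball (0 : E) r, w + ξ + ι s ∈ ball w₀ ρ₀ := by
    intro ξ hξ s hs
    rw [mem_ball_zero_iff] at hξ hs
    rw [mem_ball, dist_eq_norm]
    have h1 : ‖ι s‖ ≤ ‖ι‖ * r := (ι.le_opNorm s).trans (by gcongr)
    have h2 : w + ξ + ι s - w₀ = (w - w₀) + ξ + ι s := by abel
    have h3 : (a + ‖ι‖) * r ≤ (a + ‖ι‖) * ρ := by gcongr
    rw [h2]
    calc ‖(w - w₀) + ξ + ι s‖ ≤ ‖w - w₀‖ + ‖ξ‖ + ‖ι s‖ := norm_add₃_le
      _ < ρ + a * r + ‖ι‖ * r := by linarith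
      _ ≤ ρ₀ := by linarith
  have hsmall : ∀ ξ ∈ ball (0 : W) r, ξ ∈ ball (0 : W) (a * r) := by
    intro ξ hξ
    rw [mem_ball_zero_iff] at hξ ⊢
    nlinarith
  have hwmem : w ∈ ball w₀ ρ₀ := by
    have := hmem 0 (by rw [mem_ball_zero_iff, norm_zero]; positivity) 0
      (by rw [mem_ball_zero_iff, norm_zero]; positivity)
    simpa using this
  have hdiff : ∀ x ∈ ball w₀ ρ₀, HasFDerivAt F (fderiv ℝ F x) x := fun x hx =>
    ((hball x hx).1.differentiableAt one_ne_zero).hasFDerivAt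
  -- a measurable version of `F`
  have hFc : ContinuousOn F (ball w₀ ρ₀) := fun x hx => (hdiff x hx).continuousAt.continuousWithinAt
  have hmem0 : ∀ ξ ∈ ball (0 : W) r, w + ξ ∈ ball w₀ ρ₀ := by
    intro ξ hξ
    have := hmem ξ (hsmall ξ hξ) 0 (by rw [mem_ball_zero_iff, norm_zero]; positivity)
    simpa using this
  have hlip : ∀ y ∈ ball w₀ ρ₀, ‖F y - F w‖ ≤ L * ‖y - w‖ := by
    intro y hy
    exact (convex_ball w₀ ρ₀).norm_image_sub_le_of_norm_hasFDerivWithin_le
      (f' := fderiv ℝ F) (fun x hx => (hdiff x hx).hasFDerivWithinAt)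
      (fun x hx => (hball x hx).2.2.le) hwmem hy
  refine ⟨hFc.comp (by fun_prop) hmem0, ?_, ?_⟩
  · intro ξ hξ
    have h1 := hlip _ (hmem0 ξ hξ)
    rw [add_sub_cancel_left] at h1
    rw [mem_ball_zero_iff] at hξ
    rw [mem_ball, dist_eq_norm]
    calc ‖F (w + ξ) - F w‖ ≤ L * ‖ξ‖ := h1
      _ < L * r := by gcongr
      _ ≤ C * r := by
        rw [hC]
        have h2 : 0 ≤ 2 * a ^ m := by positivity
        have h3 : L * 1 ≤ L * (a + ‖ι‖) := by gcongr; linarith
        have h4 : L ≤ 2 * a ^ m + L * (a + ‖ι‖) := by linarith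
        gcongr
  intro g hg
  classical
  obtain ⟨Fm, hFm⟩ : ∃ Fm : W → E, Fm = (ball w₀ ρ₀).piecewise F 0 := ⟨_, rfl⟩
  have hFmm : Measurable Fm := by
    rw [hFm]
    exact hFc.measurable_piecewise continuousOn_const measurableSet_ball
  have hFme : ∀ x ∈ ball w₀ ρ₀, Fm x = F x := fun x hx => by
    rw [hFm, piecewise_eq_of_mem _ _ _ hx]
  obtain ⟨G, hG⟩ : ∃ G : W → ℝ≥0∞, G = fun x => g (Fm x) := ⟨_, rfl⟩
  have hGm : Measurable G := by rw [hG]; exact hg.comp hFmm
  -- the inner integral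
  have hin : ∀ ξ ∈ ball (0 : W) (a * r), ∫⁻ s in ball (0 : E) r, G (w + ξ + ι s) ≤
      2 * ∫⁻ z in ball (F w) (C * r), g z := by
    intro ξ hξ
    have e1 : ∫⁻ s in ball (0 : E) r, G (w + ξ + ι s) =
        ∫⁻ s in ball (0 : E) r, g (F (w + ξ + ι s)) := by
      refine setLIntegral_congr_fun measurableSet_ball fun s hs => ?_
      show G _ = _
      rw [hG]
      show g (Fm _) = _
      rw [hFme _ (hmem ξ hξ s hs)]
    rw [e1]
    have hder : ∀ s ∈ ball (0 : E) r, HasFDerivAt (fun s => F (w + ξ + ι s))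
        ((fderiv ℝ F (w + ξ + ι s)).comp ι) s := fun s hs =>
      (hdiff _ (hmem ξ hξ s hs)).comp s (ι.hasFDerivAt.const_add (w + ξ))
    refine inner_cov (G := fun s => F (w + ξ + ι s))
      (G' := fun s => (fderiv ℝ F (w + ξ + ι s)).comp ι) measurableSet_ball hder ?_ ?_ ?_
    · refine injOn_of_near_id (convex_ball _ _) hder fun s hs => ?_
      exact ((hball _ (hmem ξ hξ s hs)).2.1.trans_le (min_le_right _ _)).le
    · intro s hs
      exact hdet _ ((hball _ (hmem ξ hξ s hs)).2.1.trans_le (min_le_left _ _))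
    · intro s hs
      have h2 := hmem ξ hξ s hs
      rw [mem_ball_zero_iff] at hξ hs
      rw [mem_ball, dist_eq_norm]
      have h1 : ‖F (w + ξ + ι s) - F w‖ ≤ L * ‖w + ξ + ι s - w‖ := hlip _ h2
      have h3 : w + ξ + ι s - w = ξ + ι s := by abel
      rw [h3] at h1
      have h4 : ‖ι s‖ ≤ ‖ι‖ * r := (ι.le_opNorm s).trans (by gcongr)
      have h5 : ‖ξ + ι s‖ < (a + ‖ι‖) * r := by
        refine (norm_add_le _ _).trans_lt ?_
        linarith
      calc ‖F (w + ξ + ι s) - F w‖ ≤ L * ‖ξ + ι s‖ := h1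
        _ < L * ((a + ‖ι‖) * r) := by gcongr
        _ ≤ C * r := by
          rw [hC]
          have : 0 ≤ 2 * a ^ m * r := by positivity
          nlinarith
  have hvol : volume (ball (0 : W) (a * r)) = ENNReal.ofReal (a ^ m) * volume (ball (0 : W) r) := by
    rw [Measure.addHaar_ball_mul_of_pos _ _ (by positivity)]
  calc volume (ball (0 : E) r) * ∫⁻ ξ in ball (0 : W) r, g (F (w + ξ))
      = ∫⁻ _s in ball (0 : E) r, ∫⁻ ξ in ball (0 : W) r, G (w + ξ) := by
        rw [setLIntegral_const, mul_comm]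
        congr 1
        refine setLIntegral_congr_fun measurableSet_ball fun ξ hξ => ?_
        show _ = G _
        rw [hG]
        show _ = g (Fm _)
        rw [hFme _ (hmem0 ξ hξ)]
    _ ≤ ∫⁻ s in ball (0 : E) r, ∫⁻ ξ in ball (0 : W) (a * r), G (w + ξ + ι s) := by
        refine setLIntegral_mono' measurableSet_ball fun s hs => ?_
        rw [← lintegral_indicator measurableSet_ball, ← lintegral_indicator measurableSet_ball,
          ← lintegral_add_right_eq_self (fun ξ => (ball (0 : W) r).indicator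
            (fun ξ => G (w + ξ)) ξ) (ι s)]
        refine lintegral_mono fun ξ => ?_
        by_cases hξ : ξ + ι s ∈ ball (0 : W) r
        · have hξ' : ξ ∈ ball (0 : W) (a * r) := by
            rw [mem_ball_zero_iff] at hξ hs ⊢
            have h4 : ‖ι s‖ ≤ ‖ι‖ * r := (ι.le_opNorm s).trans (by gcongr)
            have h5 : ξ = (ξ + ι s) - ι s := by abel
            rw [h5]
            refine (norm_sub_le _ _).trans_lt ?_
            rw [ha]
            linarith
          rw [indicator_of_mem hξ, indicator_of_mem hξ', add_assoc]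
        · rw [indicator_of_notMem hξ]
          exact bot_le
    _ = ∫⁻ ξ in ball (0 : W) (a * r), ∫⁻ s in ball (0 : E) r, G (w + ξ + ι s) := by
        refine lintegral_lintegral_swap ?_
        refine (hGm.comp ?_).aemeasurable
        fun_prop
    _ ≤ ∫⁻ _ξ in ball (0 : W) (a * r), 2 * ∫⁻ z in ball (F w) (C * r), g z :=
        setLIntegral_mono' measurableSet_ball hin
    _ = 2 * (∫⁻ z in ball (F w) (C * r), g z) * volume (ball (0 : W) (a * r)) := by
        rw [setLIntegral_const]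
    _ = ENNReal.ofReal (2 * a ^ m) * volume (ball (0 : W) r) *
        ∫⁻ z in ball (F w) (C * r), g z := by
        rw [hvol, ENNReal.ofReal_mul (by norm_num)]
        simp only [ENNReal.ofReal_ofNat]
        ring
    _ ≤ _ := by
        gcongr
        rw [hC]
        have : 0 ≤ L * (a + ‖ι‖) := by positivity
        linarith

/-- the almost everywhere version -/
theorem dens2 {F : W → E} {w₀ : W} (hF : ContDiffAt ℝ 1 F w₀) (ι : E →L[ℝ] W)
    (hι : (fderiv ℝ F w₀).comp ι = ContinuousLinearMap.id ℝ E) :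
    ∃ ρ C : ℝ, 0 < ρ ∧ 0 < C ∧ ∀ w ∈ ball w₀ ρ, ∀ r : ℝ, 0 < r → r < ρ →
      MapsTo (fun ξ => F (w + ξ)) (ball (0 : W) r) (ball (F w) (C * r)) ∧
      (∀ P : E → Prop, (∀ᵐ z ∂(volume.restrict (ball (F w) (C * r))), P z) →
        ∀ᵐ ξ ∂(volume.restrict (ball (0 : W) r)), P (F (w + ξ))) ∧
      ∀ g : E → ℝ≥0∞, AEMeasurable g (volume.restrict (ball (F w) (C * r))) →
      volume (ball (0 : E) r) * ∫⁻ ξ in ball (0 : W) r, g (F (w + ξ)) ≤
        ENNReal.ofReal C * volume (ball (0 : W) r) * ∫⁻ z in ball (F w) (C * r), g z := by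
  obtain ⟨ρ, C, hρ, hC, h⟩ := dens hF ι hι
  refine ⟨ρ, C, hρ, hC, fun w hw r hr hrρ => ?_⟩
  obtain ⟨h1, h2, h3⟩ := h w hw r hr hrρ
  have hnull : ∀ P : E → Prop, (∀ᵐ z ∂(volume.restrict (ball (F w) (C * r))), P z) →
        ∀ᵐ ξ ∂(volume.restrict (ball (0 : W) r)), P (F (w + ξ)) := by
    intro P hP
    obtain ⟨Z, hZ⟩ : ∃ Z, Z = toMeasurable (volume.restrict (ball (F w) (C * r)))
      {z | ¬ P z} := ⟨_, rfl⟩
    have hZm : MeasurableSet Z := by rw [hZ]; exact measurableSet_toMeasurable _ _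
    have hZ0 : (volume.restrict (ball (F w) (C * r))) Z = 0 := by
      rw [hZ, measure_toMeasurable]
      exact hP
    have hZP : ∀ z, z ∉ Z → P z := by
      intro z hz
      by_contra hne
      exact hz (by rw [hZ]; exact subset_toMeasurable _ _ hne)
    have h4 := h3 (Z.indicator fun _ => 1) (measurable_const.indicator hZm)
    have h5 : ∫⁻ z in ball (F w) (C * r), (Z.indicator fun _ => (1 : ℝ≥0∞)) z = 0 := by
      rw [lintegral_indicator_const hZm, hZ0, mul_zero]
    rw [h5, mul_zero, nonpos_iff_eq_zero, mul_eq_zero] at h4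
    have h6 : volume (ball (0 : E) r) ≠ 0 := (measure_ball_pos _ _ hr).ne'
    have h7 := h4.resolve_left h6
    have hFm : AEMeasurable (fun ξ => F (w + ξ)) (volume.restrict (ball (0 : W) r)) :=
      h1.aemeasurable measurableSet_ball
    have hm8 : AEMeasurable (fun ξ => Z.indicator (fun _ => (1 : ℝ≥0∞)) (F (w + ξ)))
        (volume.restrict (ball (0 : W) r)) :=
      (measurable_const.indicator hZm).comp_aemeasurable hFm
    have h8 := (lintegral_eq_zero_iff' hm8).1 h7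
    filter_upwards [h8] with ξ hξ
    refine hZP _ fun hmem => ?_
    have : Z.indicator (fun _ => (1 : ℝ≥0∞)) (F (w + ξ)) = 0 := hξ
    rw [indicator_of_mem hmem] at this
    exact one_ne_zero this
  refine ⟨h2, hnull, fun g hg => ?_⟩
  have h4 := h3 (hg.mk g) hg.measurable_mk
  rw [lintegral_congr_ae hg.ae_eq_mk]
  have h5 : ∫⁻ ξ in ball (0 : W) r, g (F (w + ξ)) =
      ∫⁻ ξ in ball (0 : W) r, (hg.mk g) (F (w + ξ)) :=
    lintegral_congr_ae (hnull _ hg.ae_eq_mk)
  rw [h5]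
  exact h4

end Pool.Agent.H24.VD
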