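import Pool.Agent.H24.VD.Glob

/-!
# The main theorem
-/

set_option autoImplicit false
set_option maxSynthPendingDepth 3
set_option linter.unusedSectionVars false

open MeasureTheory Metric Set Filter Topology
open scoped ContDiff ENNReal Manifold

noncomputable section

namespace Pool.Agent.H24.VD

open Pool.Agent.Y501.SY

variable {d : ℕ} {X : Type} [TopologicalSpace X] [ChartedSpace (E d) X]
  [IsManifold (𝓡 d) ∞ X]

theorem classTames_of_isEmpty [IsEmpty X] (τ : Form d X 2) (J : End d X) : ClassTames τ J := by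
  refine ⟨0, 0, IsSmooth.zero, IsSmooth.zero, IsD.zero, ?_⟩
  have h0 : τ + 0 = 0 := by
    funext x
    exact isEmptyElim x
  rw [h0]
  exact ⟨IsSmooth.zero, IsD.zero, fun x => isEmptyElim x, fun x => isEmptyElim x⟩

theorem main_filter [CompactSpace X] [T2Space X] {J : End d X} {α : ℝ} (hα : 0 < α)
    (hα1 : α ≤ 1) (hJ : LocallyHolder α J)
    {ι : Type} {l : Filter ι} {r : ι → ℝ} {T τ : ι → Form d X 2}
    (hr : Tendsto r l (𝓝[>] 0)) (hτ : ∀ i, IsSmooth (τ i) ∧ IsClosedForm (τ i))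
    (hT : ∀ x₀, ControlledNear α J l r T τ x₀) :
    ∀ᶠ i in l, ClassTames (τ i) J := by
  classical
  rcases isEmpty_or_nonempty X with hX | hX
  · exact Eventually.of_forall fun i => classTames_of_isEmpty _ _
  obtain ⟨n, em, hem, hemb, himm⟩ := exists_embedding_euclidean_of_compact (I := 𝓡 d) (M := X)
  obtain ⟨P, δ, C, hR⟩ := Pool.Agent.N824.CN.exists_retr (n := d) (N := X) hem hemb.injective (by
    intro y
    obtain ⟨A, hA0, hA⟩ := Pool.Agent.N824.CN.exists_param (n := d) y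
    refine ⟨A, hA0, hA, fun v hv => ?_⟩
    have h1 : MDifferentiableAt (𝓡 d) (𝓡 d) A 0 := hA.contMDiffAt.mdifferentiableAt (by simp)
    have h2 : MDifferentiableAt (𝓡 d) 𝓘(ℝ, E n) em (A 0) := (hem _).mdifferentiableAt (by simp)
    have h3 := mfderiv_comp 0 h2 h1
    rw [mfderiv_eq_fderiv] at h3
    have h4 : fderiv ℝ (em ∘ A) 0 v = 0 := hv
    rw [h3] at h4
    have h5 : mfderiv (𝓡 d) (𝓡 d) A 0 v = 0 := himm (A 0) (h4.trans (map_zero _).symm)
    exact hA.mfderiv_injective (h5.trans (map_zero _).symm))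
  have hδ := hR.δ0
  have hPe := hR.left
  have hPs := hR.sP
  have hPev : ∀ y, ∀ᶠ w in 𝓝 (em y), ContMDiffAt 𝓘(ℝ, E n) (𝓡 d) ∞ P w := fun y =>
    tube_ev hPs (by rw [sub_self, norm_zero]; exact hδ)
  choose a₀ ρ ha₀ hρ hsub hJc hpos using near_point hem hPe hPev hα hα1 hJ hr
    (fun i => (hτ i).1) hT
  obtain ⟨t, ht⟩ := isCompact_univ.elim_nhds_subcover
    (fun x : X => (chartAt (E d) x).source ∩ (chartAt (E d) x) ⁻¹' ball (chartAt (E d) x x) (ρ x))
    fun x _ => ((chartAt (E d) x).isOpen_inter_preimage isOpen_ball).mem_nhds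
      ⟨mem_chart_source _ _, mem_ball_self (hρ x)⟩
  obtain ⟨a, ha, hale⟩ : ∃ a : ℝ, 0 < a ∧ ∀ x ∈ t, a ≤ a₀ x := by
    clear ht
    induction t using Finset.induction_on with
    | empty => exact ⟨1, one_pos, fun x hx => absurd hx (by simp)⟩
    | insert b u hb ih =>
      obtain ⟨a, ha, h1⟩ := ih
      refine ⟨min a (a₀ b), lt_min ha (ha₀ b), fun x hx => ?_⟩
      rcases Finset.mem_insert.1 hx with rfl | hx
      · exact min_le_right _ _
      · exact (min_le_left _ _).trans (h1 x hx)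
  have hall : ∀ᶠ i in l, ∀ j ∈ t, ∀ p ∈ closedBall (chartAt (E d) j j) (ρ j), ∀ u, u ≠ 0 →
      0 < ∫ ξ in ball (0 : E n) (a * r i), ig P em J j (τ i) ξ p u :=
    (Finset.eventually_all t).2 fun j hj => hpos j a ha (hale j hj)
  have hr0 : ∀ᶠ i in l, 0 < r i := hr.eventually self_mem_nhdsWithin
  have hr1 : ∀ᶠ i in l, a * r i < δ := by
    have h1 : Tendsto (fun i => a * r i) l (𝓝 (a * 0)) :=
      (hr.mono_right nhdsWithin_le_nhds).const_mul a
    rw [mul_zero] at h1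
    exact h1.eventually_lt_const hδ
  filter_upwards [hall, hr0, hr1] with i i1 i2 i3
  refine comb_tames hem hPe hPs hδ (hτ i).1 (hτ i).2 t ρ (fun j _ => hsub j) (fun j _ => hJc j)
    ?_ (by positivity) i3 i1
  intro x
  have hx := ht.2 (mem_univ x)
  simp only [mem_iUnion, mem_inter_iff, mem_preimage, exists_prop] at hx
  obtain ⟨j, hj, h1, h2⟩ := hx
  exact ⟨j, hj, h1, ball_subset_closedBall h2⟩

/-- the iterated limit -/
def itl : Filter (ℝ × ℕ) := (𝓝[>] (0 : ℝ)).bind fun r => Filter.map (fun k => (r, k)) atTop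

theorem itl_ev (p : ℝ × ℕ → Prop) :
    (∀ᶠ z in itl, p z) ↔ ∀ᶠ r in 𝓝[>] (0 : ℝ), ∀ᶠ k in atTop, p (r, k) := by
  unfold itl
  rw [Filter.eventually_bind]
  rfl

theorem itl_tendsto : Tendsto (fun z : ℝ × ℕ => z.1) itl (𝓝[>] 0) := by
  intro s hs
  have h1 : ∀ᶠ z in itl, z.1 ∈ s := by
    rw [itl_ev]
    have h2 : ∀ᶠ r in 𝓝[>] (0 : ℝ), r ∈ s := hs
    exact h2.mono fun r hr => Eventually.of_forall fun k => hr
  exact h1

/-- Closed forms converging in `L¹` to a uniformly taming form, which may be unbounded. -/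
theorem main_uniform [CompactSpace X] [T2Space X] {J : End d X} {α : ℝ} (hα : 0 < α)
    (hα1 : α ≤ 1) (hJ : LocallyHolder α J) {T : Form d X 2} {τ : ℕ → Form d X 2}
    (hτ : ∀ k, IsSmooth (τ k) ∧ IsClosedForm (τ k))
    (hT : ∀ x₀ : X, ∃ N ∈ 𝓝 (chartAt (E d) x₀ x₀), ∃ κ : ℝ, 0 < κ ∧
      AEStronglyMeasurable (loc T x₀) (volume.restrict N) ∧
      (∀ᵐ p ∂(volume.restrict N), ∀ u, κ * (1 + ‖loc T x₀ p‖) * ‖u‖ ^ 2 ≤
        loc T x₀ p ![u, inChart J x₀ p u]) ∧
      Tendsto (fun k => ∫⁻ q in N, ENNReal.ofReal ‖loc (τ k) x₀ q - loc T x₀ q‖) atTop (𝓝 0)) :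
    ∀ᶠ k in atTop, ClassTames (τ k) J := by
  have key := main_filter (l := itl) (r := fun z => z.1) (T := fun _ => T) (τ := fun z => τ z.2)
    hα hα1 hJ itl_tendsto (fun z => hτ z.2) ?_
  · rw [itl_ev] at key
    obtain ⟨r, hr⟩ := key.exists
    exact hr
  intro x₀
  obtain ⟨N, hN, κ, hκ, hTm, hpos, hlim⟩ := hT x₀
  refine ⟨N, hN, κ, κ⁻¹, fun _ q => κ * (1 + ‖loc T x₀ q‖), fun _ _ => 0, hκ, ?_, ?_⟩
  · intro z
    refine ⟨⟨hTm, (hTm.norm.aemeasurable.const_add 1).const_mul κ, aemeasurable_const⟩, ?_⟩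
    filter_upwards [hpos] with p hp
    refine ⟨le_rfl, ?_, hp, ?_⟩
    · nlinarith [norm_nonneg (loc T x₀ p)]
    · intro u v
      obtain ⟨a, ha⟩ : ∃ a, a = ‖loc T x₀ p‖ := ⟨_, rfl⟩
      have ha0 : 0 ≤ a := by rw [ha]; positivity
      have hsq : ∀ w, √(κ * a) * ‖w‖ ≤ √(loc T x₀ p ![w, inChart J x₀ p w]) := by
        intro w
        have h1 := hp w
        rw [← ha] at h1
        have h2 : √(κ * a) * ‖w‖ = √(κ * a * ‖w‖ ^ 2) := by
          rw [Real.sqrt_mul (by positivity : 0 ≤ κ * a) (‖w‖ ^ 2), Real.sqrt_sq (norm_nonneg _)]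
        rw [h2]
        refine Real.sqrt_le_sqrt (le_trans ?_ h1)
        have : 0 ≤ κ * ‖w‖ ^ 2 := by positivity
        nlinarith
      have h3 := alt_le (loc T x₀ p) u v
      rw [← ha] at h3
      have h4 : a * ‖u‖ * ‖v‖ = κ⁻¹ * (√(κ * a) * ‖u‖) * (√(κ * a) * ‖v‖) := by
        have h5 : √(κ * a) * √(κ * a) = κ * a := Real.mul_self_sqrt (by positivity)
        have h6 : κ⁻¹ * (√(κ * a) * ‖u‖) * (√(κ * a) * ‖v‖) =
            κ⁻¹ * (√(κ * a) * √(κ * a)) * ‖u‖ * ‖v‖ := by ring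
        rw [h6, h5]
        field_simp
      rw [h4] at h3
      refine h3.trans ?_
      rw [zero_mul, zero_mul, add_zero]
      have hu := hsq u
      have hv := hsq v
      gcongr
  · intro δ hδ
    obtain ⟨ρ, hρ, hρsub⟩ := Metric.mem_nhds_iff.1 hN
    refine ⟨ball (chartAt (E d) x₀ x₀) (ρ / 2), ball_mem_nhds _ (by positivity), ?_⟩
    intro ε hε
    rw [itl_ev]
    have hrρ : ∀ᶠ r in 𝓝[>] (0 : ℝ), r < ρ / 2 :=
      (tendsto_id.mono_left nhdsWithin_le_nhds).eventually_lt_const (by positivity)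
    have hr2 : ∀ᶠ r in 𝓝[>] (0 : ℝ), r ^ (2 * α) < δ * κ := by
      have h1 : Tendsto (fun r : ℝ => r ^ (2 * α)) (𝓝[>] 0) (𝓝 (0 ^ (2 * α))) :=
        (Real.continuousAt_rpow_const 0 (2 * α) (Or.inr (by positivity))).tendsto.mono_left
          nhdsWithin_le_nhds
      rw [Real.zero_rpow (by positivity)] at h1
      exact h1.eventually_lt_const (by positivity)
    filter_upwards [hrρ, hr2, self_mem_nhdsWithin] with r r4 r6 r5
    have r5' : 0 < r := r5
    have hvpos : 0 < ENNReal.ofReal ε * volume (ball (0 : E d) r) :=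
      ENNReal.mul_pos (by rw [ne_eq, ENNReal.ofReal_eq_zero, not_le]; positivity)
        (measure_ball_pos _ _ r5').ne'
    filter_upwards [hlim.eventually_lt_const hvpos] with k hk
    intro p hp
    have hball : ball p r ⊆ N := by
      refine Subset.trans ?_ hρsub
      rw [mem_ball] at hp
      exact ball_subset_ball' (by linarith)
    have h7 : volume (ball p r) = volume (ball (0 : E d) r) := Measure.addHaar_ball_center _ _ _
    rw [h7]
    refine le_trans ?_ hk.le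
    refine (lintegral_mono fun q => ?_).trans (lintegral_mono_set hball)
    refine ENNReal.ofReal_le_ofReal ?_
    show r ^ (2 * α) * ‖loc T x₀ q‖ + r ^ α * 0 + ‖loc (τ k) x₀ q - loc T x₀ q‖ -
      δ * (κ * (1 + ‖loc T x₀ q‖)) ≤ ‖loc (τ k) x₀ q - loc T x₀ q‖
    have h8 := norm_nonneg (loc T x₀ q)
    have h9 : r ^ (2 * α) * ‖loc T x₀ q‖ ≤ δ * κ * ‖loc T x₀ q‖ := by gcongr
    have h10 : 0 < δ * κ := by positivity
    nlinarith

end Pool.Agent.H24.VD
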