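import Pool.Agent.H24.VD.Pub
import Pool.Agent.H24.VD.Main

/-!
# Comparison of the definitions
-/

set_option autoImplicit false

open Set Filter Topology MeasureTheory Metric
open scoped Manifold ContDiff

noncomputable section

namespace Pool.Agent.H24.VDP

open Pool.Agent.Y501.SYP

section

variable {d : ℕ} {X : Type} [TopologicalSpace X] [ChartedSpace (ES d) X]

/-- the same charted space over `EuclideanSpace ℝ (Fin d)` -/
abbrev cs (d : ℕ) (X : Type) [TopologicalSpace X] [h : ChartedSpace (ES d) X] :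
    ChartedSpace (Pool.Agent.Y501.SY.E d) X := h

attribute [local instance] cs

/-- the same manifold over `EuclideanSpace ℝ (Fin d)` -/
theorem mf (d : ℕ) (X : Type) [TopologicalSpace X] [ChartedSpace (ES d) X]
    [h : IsManifold 𝓘(ℝ, ES d) ∞ X] : IsManifold (𝓡 d) ∞ X := h

attribute [local instance] mf

theorem smooth_iff {k : ℕ} (σ : Form (ES d) X k) :
    IsSmooth σ ↔ Pool.Agent.Y501.SY.IsSmooth (d := d) (X := X) σ :=
  ⟨fun h U φ hU hφ => h U φ ⟨hU, hφ⟩, fun h U φ hφ => h U φ hφ.1 hφ.2⟩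

theorem isD_iff {k : ℕ} (α : Form (ES d) X k) (η : Form (ES d) X (k + 1)) :
    IsD α η ↔ Pool.Agent.Y501.SY.IsD (d := d) (X := X) α η :=
  ⟨fun h U φ hU hφ => h U φ ⟨hU, hφ⟩, fun h U φ hφ => h U φ hφ.1 hφ.2⟩

theorem closed_iff {k : ℕ} (σ : Form (ES d) X k) :
    IsClosedForm σ ↔ Pool.Agent.Y501.SY.IsClosedForm (d := d) (X := X) σ :=
  ⟨fun h U φ hU hφ p hp => h U φ ⟨hU, hφ⟩ p hp, fun h U φ hφ p hp => h U φ hφ.1 hφ.2 p hp⟩

theorem class_of (τ : Form (ES d) X 2) (J : End (ES d) X)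
    (h : Pool.Agent.H24.VD.ClassTames (d := d) (X := X) τ J) : ClassTames τ J := by
  obtain ⟨β, ρ, h1, h2, h3, h4⟩ := h
  refine ⟨β, ρ, (smooth_iff β).2 h1, (smooth_iff ρ).2 h2, (isD_iff β ρ).2 h3, ?_⟩
  exact ⟨(smooth_iff _).2 h4.smooth, (closed_iff _).2 h4.closed, h4.nondeg, h4.tames⟩

theorem inChart_eq (J : End (ES d) X) (x₀ : X) (p v : ES d) :
    inChart J x₀ p v = Pool.Agent.Y501.SY.inChart (d := d) (X := X) J x₀ p v := rfl

theorem holder_of {α : ℝ} (J : End (ES d) X) (h : LocallyHolder α J) :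
    Pool.Agent.H24.VD.LocallyHolder (d := d) (X := X) α J := by
  intro x₀
  obtain ⟨N, hN, C, hC⟩ := h x₀
  refine ⟨N, hN, max C 0, fun p hp q hq => ?_⟩
  have h0 : 0 ≤ ‖p - q‖ ^ α := Real.rpow_nonneg (norm_nonneg _) _
  refine ContinuousLinearMap.opNorm_le_bound _ (mul_nonneg (le_max_right _ _) h0) fun v => ?_
  have h1 := hC p hp q hq v
  rw [inChart_eq, inChart_eq] at h1
  refine h1.trans ?_
  have h2 : C * ‖p - q‖ ^ α ≤ max C 0 * ‖p - q‖ ^ α :=
    mul_le_mul_of_nonneg_right (le_max_left _ _) h0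
  exact mul_le_mul_of_nonneg_right h2 (norm_nonneg _)

theorem final [IsManifold 𝓘(ℝ, ES d) ∞ X] [CompactSpace X] [T2Space X]
    (J : End (ES d) X) (α : ℝ) (hα : 0 < α) (hα1 : α ≤ 1) (hJ : LocallyHolder α J)
    (ι : Type) (l : Filter ι) (r : ι → ℝ) (hr : Tendsto r l (𝓝[>] 0))
    (T τ : ι → Form (ES d) X 2) (hτ : ∀ i, IsSmooth (τ i) ∧ IsClosedForm (τ i))
    (hT : ∀ x₀ : X, ControlledNear (leb d) α J l r T τ x₀) :
    ∀ᶠ i in l, ClassTames (τ i) J := by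
  have key := Pool.Agent.H24.VD.main_filter (d := d) (X := X) (J := J) hα hα1 (holder_of J hJ)
    (l := l) (r := r) (T := T) (τ := τ) hr
    (fun i => ⟨(smooth_iff _).1 (hτ i).1, (closed_iff _).1 (hτ i).2⟩) hT
  exact key.mono fun i hi => class_of _ _ hi

/-- Closed forms converging in `L¹` to a uniformly taming form, which may be unbounded. -/
theorem final_uniform [IsManifold 𝓘(ℝ, ES d) ∞ X] [CompactSpace X] [T2Space X]
    (J : End (ES d) X) (α : ℝ) (hα : 0 < α) (hα1 : α ≤ 1) (hJ : LocallyHolder α J)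
    (T : Form (ES d) X 2) (τ : ℕ → Form (ES d) X 2)
    (hτ : ∀ k, IsSmooth (τ k) ∧ IsClosedForm (τ k))
    (hT : ∀ x₀ : X, ∃ N ∈ 𝓝 (chartAt (ES d) x₀ x₀), ∃ κ : ℝ, 0 < κ ∧
      AEStronglyMeasurable (loc T x₀) ((leb d).restrict N) ∧
      (∀ᵐ p ∂((leb d).restrict N), ∀ u, κ * (1 + ‖loc T x₀ p‖) * ‖u‖ ^ 2 ≤
        loc T x₀ p ![u, inChart J x₀ p u]) ∧
      Tendsto (fun k => ∫⁻ q in N, ENNReal.ofReal ‖loc (τ k) x₀ q - loc T x₀ q‖ ∂(leb d)) atTop
        (𝓝 0)) :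
    ∀ᶠ k in atTop, ClassTames (τ k) J := by
  have key := Pool.Agent.H24.VD.main_uniform (d := d) (X := X) (J := J) hα hα1 (holder_of J hJ)
    (T := T) (τ := τ)
    (fun i => ⟨(smooth_iff _).1 (hτ i).1, (closed_iff _).1 (hτ i).2⟩) hT
  exact key.mono fun i hi => class_of _ _ hi

end

end Pool.Agent.H24.VDP
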