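import Mathlib

/-!
# Smoothness of maps with values in alternating forms
-/

set_option autoImplicit false
set_option maxSynthPendingDepth 3
set_option linter.unusedSectionVars false

open Metric Set Filter Topology
open scoped ContDiff

noncomputable section

namespace Pool.Agent.H24.VD

variable {V : Type} [NormedAddCommGroup V] [NormedSpace ℝ V] [FiniteDimensional ℝ V]
  {V' : Type} [NormedAddCommGroup V'] [NormedSpace ℝ V'] [FiniteDimensional ℝ V']
  {W : Type} [NormedAddCommGroup W] [NormedSpace ℝ W] {k : ℕ} {N : WithTop ℕ∞}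
  {s : Set W} {x : W}

/-- smoothness can be tested on vectors -/
theorem alt_smooth {f : W → V [⋀^Fin k]→L[ℝ] ℝ}
    (h : ∀ v, ContDiffWithinAt ℝ N (fun p => f p v) s x) : ContDiffWithinAt ℝ N f s x := by
  classical
  obtain ⟨T, hT⟩ : ∃ T : (V [⋀^Fin k]→L[ℝ] ℝ) →ₗ[ℝ]
      ((Fin k → Fin (Module.finrank ℝ V)) → ℝ), ∀ β j,
      T β j = β (fun i => Module.finBasis ℝ V (j i)) :=
    ⟨{ toFun := fun β j => β (fun i => Module.finBasis ℝ V (j i))
       map_add' := fun _ _ => rfl
       map_smul' := fun _ _ => rfl }, fun _ _ => rfl⟩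
  have hinj : Function.Injective T := by
    intro β β' h
    apply ContinuousAlternatingMap.toAlternatingMap_injective
    refine Module.Basis.ext_alternating (Module.finBasis ℝ V) fun v _ => ?_
    have := congrFun h v
    rw [hT, hT] at this
    exact this
  obtain ⟨g, hg⟩ := T.exists_leftInverse_of_injective (LinearMap.ker_eq_bot.2 hinj)
  have h1 : f = fun p => LinearMap.toContinuousLinearMap g (T (f p)) := by
    funext p
    have := congrArg (fun L => L (f p)) hg
    exact this.symm
  rw [h1]
  refine (LinearMap.toContinuousLinearMap g).contDiff.contDiffAt.comp_contDiffWithinAt x ?_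
  refine contDiffWithinAt_pi.2 fun j => ?_
  simp only [hT]
  exact h _

/-- evaluation is smooth -/
theorem eval_smooth {A : W → V [⋀^Fin k]→L[ℝ] ℝ} {u : Fin k → W → V}
    (hA : ContDiffWithinAt ℝ N A s x) (hu : ∀ i, ContDiffWithinAt ℝ N (u i) s x) :
    ContDiffWithinAt ℝ N (fun p => A p (fun i => u i p)) s x := by
  classical
  obtain ⟨b, hb⟩ : ∃ b, b = Module.finBasis ℝ V := ⟨_, rfl⟩
  have h1 : (fun p => A p (fun i => u i p)) = fun p =>
      ∑ j : Fin k → Fin (Module.finrank ℝ V), (∏ i, b.repr (u i p) (j i)) *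
        A p (fun i => b (j i)) := by
    funext p
    have e1 : (fun i => u i p) = fun i => ∑ l, (b.repr (u i p) l) • b l := by
      funext i
      exact (b.sum_repr (u i p)).symm
    conv_lhs => rw [e1]
    have e2 := (A p).toMultilinearMap.map_sum (fun i l => (b.repr (u i p) l) • b l)
    refine e2.trans ?_
    refine Finset.sum_congr rfl fun j _ => ?_
    exact (A p).toMultilinearMap.map_smul_univ (fun i => b.repr (u i p) (j i))
      (fun i => b (j i))
  rw [h1]
  refine ContDiffWithinAt.sum fun j _ => ?_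
  refine ContDiffWithinAt.mul ?_ ?_
  · refine contDiffWithinAt_prod fun i _ => ?_
    obtain ⟨c, hc⟩ : ∃ c : V →L[ℝ] ℝ, ∀ v, c v = b.repr v (j i) :=
      ⟨LinearMap.toContinuousLinearMap (b.coord (j i)), fun v => rfl⟩
    simp only [← hc]
    exact c.contDiff.contDiffAt.comp_contDiffWithinAt x (hu i)
  · exact (ContinuousAlternatingMap.apply ℝ V ℝ (fun i => b (j i))).contDiff.contDiffAt.comp_contDiffWithinAt
      x hA

/-- composition with a linear map is smooth -/
theorem comp_smooth {A : W → V' [⋀^Fin k]→L[ℝ] ℝ} {L : W → V →L[ℝ] V'}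
    (hA : ContDiffWithinAt ℝ N A s x) (hL : ContDiffWithinAt ℝ N L s x) :
    ContDiffWithinAt ℝ N (fun p => (A p).compContinuousLinearMap (L p)) s x := by
  refine alt_smooth fun v => ?_
  exact eval_smooth (u := fun i p => L p (v i)) hA fun i => hL.clm_apply contDiffWithinAt_const

end Pool.Agent.H24.VD
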