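import Pool.Graph.R_seed8.Y501.SY.PairL
import Pool.Graph.R_seed8.Y484.SY.Gen
import Pool.Agent.H24.VD.Smo

/-!
# Forms on a submanifold of a Euclidean space and forms on a tubular neighbourhood
-/

set_option autoImplicit false
set_option maxSynthPendingDepth 3
set_option linter.unusedSectionVars false

open Metric Set Filter Topology
open scoped Manifold ContDiff

noncomputable section

namespace Pool.Agent.H24.VD

open Pool.Agent.Y501.SY

variable {d n : ℕ} {X : Type} [TopologicalSpace X] [ChartedSpace (E d) X]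
  [IsManifold (𝓡 d) ∞ X]

/-- the restriction of a form on the ambient space -/
def emPull {k : ℕ} (em : X → E n) (η : E n → (E n) [⋀^Fin k]→L[ℝ] ℝ) : Form d X k :=
  fun x => (η (em x)).compContinuousLinearMap (mfderiv (𝓡 d) 𝓘(ℝ, E n) em x)

/-- the extension of a form to the ambient space -/
def tl {k : ℕ} (P : E n → X) (τ : Form d X k) : E n → (E n) [⋀^Fin k]→L[ℝ] ℝ :=
  fun w => (τ (P w)).compContinuousLinearMap (mfderiv 𝓘(ℝ, E n) (𝓡 d) P w)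

theorem em_comp {em : X → E n} (hem : ContMDiff (𝓡 d) 𝓘(ℝ, E n) ∞ em) {U : Set (E d)}
    {φ : E d → X} (hφ : ContMDiffOn (𝓡 d) (𝓡 d) ∞ φ U) :
    ContDiffOn ℝ ∞ (fun q => em (φ q)) U :=
  contMDiffOn_iff_contDiffOn.1 (hem.comp_contMDiffOn hφ)

theorem pb_emPull {k : ℕ} {em : X → E n} (hem : ContMDiff (𝓡 d) 𝓘(ℝ, E n) ∞ em)
    (η : E n → (E n) [⋀^Fin k]→L[ℝ] ℝ) {U : Set (E d)} (hU : IsOpen U) {φ : E d → X}
    (hφ : ContMDiffOn (𝓡 d) (𝓡 d) ∞ φ U) {p : E d} (hp : p ∈ U) :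
    pb φ (emPull em η) p =
      (η (em (φ p))).compContinuousLinearMap (fderiv ℝ (fun q => em (φ q)) p) := by
  have h1 : MDifferentiableAt (𝓡 d) (𝓡 d) φ p :=
    (hφ.contMDiffAt (hU.mem_nhds hp)).mdifferentiableAt (by simp)
  have h2 : MDifferentiableAt (𝓡 d) 𝓘(ℝ, E n) em (φ p) :=
    (hem (φ p)).mdifferentiableAt (by simp)
  have h3 := mfderiv_comp p h2 h1
  rw [mfderiv_eq_fderiv] at h3
  have h4 : fderiv ℝ (fun q => em (φ q)) p = fderiv ℝ (em ∘ φ) p := rfl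
  rw [h4, h3]
  rfl

theorem emPull_smooth {k : ℕ} {em : X → E n} (hem : ContMDiff (𝓡 d) 𝓘(ℝ, E n) ∞ em)
    {η : E n → (E n) [⋀^Fin k]→L[ℝ] ℝ} (h : ∀ x, ContDiffAt ℝ ∞ η (em x)) :
    IsSmooth (d := d) (emPull em η) := by
  intro U φ hU hφ p hp
  have h1 := em_comp hem hφ
  have h2 : ContDiffWithinAt ℝ ∞ (fun p => (η (em (φ p))).compContinuousLinearMap
      (fderiv ℝ (fun q => em (φ q)) p)) U p := by
    refine comp_smooth ?_ ?_
    · exact (h (φ p)).comp_contDiffWithinAt p (h1 p hp)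
    · exact (h1.fderiv_of_isOpen hU (by simp)) p hp
  exact h2.congr (fun q hq => pb_emPull hem η hU hφ hq) (pb_emPull hem η hU hφ hp)

theorem emPull_isD {k : ℕ} {em : X → E n} (hem : ContMDiff (𝓡 d) 𝓘(ℝ, E n) ∞ em)
    {α : E n → (E n) [⋀^Fin k]→L[ℝ] ℝ} {η : E n → (E n) [⋀^Fin (k + 1)]→L[ℝ] ℝ}
    (hα : ∀ x, ContDiffAt ℝ ∞ α (em x)) (h : ∀ x, extDeriv α (em x) = η (em x)) :
    IsD (d := d) (emPull em α) (emPull em η) := by
  intro U φ hU hφ p hp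
  have h1 := em_comp hem hφ
  have e1 : pb φ (emPull em α) =ᶠ[𝓝 p] fun p => (α (em (φ p))).compContinuousLinearMap
      (fderiv ℝ (fun q => em (φ q)) p) := by
    filter_upwards [hU.mem_nhds hp] with q hq
    exact pb_emPull hem α hU hφ hq
  rw [e1.extDeriv_eq, pb_emPull hem η hU hφ hp]
  have e2 : extDeriv (fun p => (α (em (φ p))).compContinuousLinearMap
      (fderiv ℝ (fun q => em (φ q)) p)) p = (extDeriv α (em (φ p))).compContinuousLinearMap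
      (fderiv ℝ (fun q => em (φ q)) p) := extDeriv_pullback (r := ∞)
    ((hα (φ p)).differentiableAt (by simp)) (h1.contDiffAt (hU.mem_nhds hp))
    Pool.Agent.Y484.SY.two_le
  rw [e2, h]

/-- the extension in a chart -/
theorem tl_at {k : ℕ} {P : E n → X} {x₀ : X} {w : E n} (w3 : P w ∈ (chartAt (E d) x₀).source)
    (w1 : ContMDiffAt 𝓘(ℝ, E n) (𝓡 d) ∞ P w) (τ : Form d X k) :
    ContDiffAt ℝ ∞ (fun w => chartAt (E d) x₀ (P w)) w ∧
      tl P τ w = (pb (chartAt (E d) x₀).symm τ (chartAt (E d) x₀ (P w))).compContinuousLinearMap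
        (fderiv ℝ (fun w => chartAt (E d) x₀ (P w)) w) := by
  obtain ⟨c, hc⟩ : ∃ c, c = chartAt (E d) x₀ := ⟨_, rfl⟩
  rw [← hc] at w3 ⊢
  have hc1 : ContMDiffOn (𝓡 d) (𝓡 d) ∞ c c.source := by
    rw [hc]
    exact contMDiffOn_chart
  have hc2 : ContMDiffOn (𝓡 d) (𝓡 d) ∞ c.symm c.target := by
    rw [hc]
    exact contMDiffOn_chart_symm
  have w2 : ∀ᶠ w in 𝓝 w, P w ∈ c.source :=
    w1.continuousAt.eventually_mem (c.open_source.mem_nhds w3)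
  have d1 : ContMDiffAt (𝓡 d) (𝓡 d) ∞ c (P w) := hc1.contMDiffAt (c.open_source.mem_nhds w3)
  have d2 : ContMDiffAt 𝓘(ℝ, E n) (𝓡 d) ∞ (c ∘ P) w := d1.comp w w1
  have d3 : ContDiffAt ℝ ∞ (fun w => c (P w)) w := contMDiffAt_iff_contDiffAt.1 d2
  refine ⟨d3, ?_⟩
  have d4 : ContMDiffAt (𝓡 d) (𝓡 d) ∞ c.symm (c (P w)) :=
    hc2.contMDiffAt (c.open_target.mem_nhds (c.map_source w3))
  have e1 : P =ᶠ[𝓝 w] c.symm ∘ (c ∘ P) := by
    filter_upwards [w2] with y hy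
    exact (c.left_inv hy).symm
  have e2 : mfderiv 𝓘(ℝ, E n) (𝓡 d) P w =
      (mfderiv (𝓡 d) (𝓡 d) c.symm (c (P w))).comp (fderiv ℝ (fun w => c (P w)) w) := by
    rw [e1.mfderiv_eq]
    rw [mfderiv_comp w (d4.mdifferentiableAt (by simp)) (d2.mdifferentiableAt (by simp)),
      mfderiv_eq_fderiv]
    rfl
  obtain ⟨τ', hτ'⟩ : ∃ τ' : X → (E d) [⋀^Fin k]→L[ℝ] ℝ, ∀ x, τ' x = τ x := ⟨τ, fun _ => rfl⟩
  have e3 : τ' (c.symm (c (P w))) = τ' (P w) := by rw [c.left_inv w3]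
  rw [hτ', hτ'] at e3
  unfold tl pb
  rw [e2]
  ext v
  exact congrArg (fun A : (E d) [⋀^Fin k]→L[ℝ] ℝ => A fun i =>
    mfderiv (𝓡 d) (𝓡 d) c.symm (c (P w)) (fderiv ℝ (fun w => c (P w)) w (v i))) e3.symm

/-- the extension in a chart -/
theorem tl_eq {k : ℕ} {P : E n → X} {w₀ : E n}
    (hP : ∀ᶠ w in 𝓝 w₀, ContMDiffAt 𝓘(ℝ, E n) (𝓡 d) ∞ P w) (τ : Form d X k) :
    ∀ᶠ w in 𝓝 w₀, P w ∈ (chartAt (E d) (P w₀)).source ∧
      ContDiffAt ℝ ∞ (fun w => chartAt (E d) (P w₀) (P w)) w ∧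
      tl P τ w = (pb (chartAt (E d) (P w₀)).symm τ (chartAt (E d) (P w₀) (P w))).compContinuousLinearMap
        (fderiv ℝ (fun w => chartAt (E d) (P w₀) (P w)) w) := by
  have h1 : ∀ᶠ w in 𝓝 w₀, P w ∈ (chartAt (E d) (P w₀)).source :=
    hP.self_of_nhds.continuousAt.eventually_mem
      ((chartAt (E d) (P w₀)).open_source.mem_nhds (mem_chart_source _ _))
  filter_upwards [hP, h1] with w w1 w2
  exact ⟨w2, tl_at w2 w1 τ⟩

/-- the extension is smooth -/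
theorem tl_smooth {k : ℕ} {P : E n → X} {w₀ : E n}
    (hP : ∀ᶠ w in 𝓝 w₀, ContMDiffAt 𝓘(ℝ, E n) (𝓡 d) ∞ P w) {τ : Form d X k}
    (hτ : IsSmooth τ) : ContDiffAt ℝ ∞ (tl P τ) w₀ := by
  have h1 := tl_eq hP τ
  obtain ⟨h2, h3, -⟩ := h1.self_of_nhds
  have hc2 : ContMDiffOn (𝓡 d) (𝓡 d) ∞ (chartAt (E d) (P w₀)).symm
      (chartAt (E d) (P w₀)).target := contMDiffOn_chart_symm
  have h4 : ContDiffAt ℝ ∞ (fun w => (pb (chartAt (E d) (P w₀)).symm τ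
      (chartAt (E d) (P w₀) (P w))).compContinuousLinearMap
        (fderiv ℝ (fun w => chartAt (E d) (P w₀) (P w)) w)) w₀ := by
    rw [← contDiffWithinAt_univ]
    refine comp_smooth ?_ ?_
    · rw [contDiffWithinAt_univ]
      have h5 := (hτ _ _ (chartAt (E d) (P w₀)).open_target hc2).contDiffAt
        ((chartAt (E d) (P w₀)).open_target.mem_nhds ((chartAt (E d) (P w₀)).map_source h2))
      exact h5.comp w₀ h3
    · rw [contDiffWithinAt_univ]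
      exact h3.fderiv_right (m := ∞) (by simp)
  exact h4.congr_of_eventuallyEq (h1.mono fun w hw => hw.2.2)

/-- the extension is closed -/
theorem tl_closed {k : ℕ} {P : E n → X} {w₀ : E n}
    (hP : ∀ᶠ w in 𝓝 w₀, ContMDiffAt 𝓘(ℝ, E n) (𝓡 d) ∞ P w) {τ : Form d X k}
    (hτ : IsSmooth τ) (hc : IsClosedForm τ) : extDeriv (tl P τ) w₀ = 0 := by
  have h1 := tl_eq hP τ
  obtain ⟨h2, h3, -⟩ := h1.self_of_nhds
  have hc2 : ContMDiffOn (𝓡 d) (𝓡 d) ∞ (chartAt (E d) (P w₀)).symm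
      (chartAt (E d) (P w₀)).target := contMDiffOn_chart_symm
  have hmem := (chartAt (E d) (P w₀)).map_source h2
  have e1 : tl P τ =ᶠ[𝓝 w₀] fun w => (pb (chartAt (E d) (P w₀)).symm τ
      (chartAt (E d) (P w₀) (P w))).compContinuousLinearMap
        (fderiv ℝ (fun w => chartAt (E d) (P w₀) (P w)) w) := h1.mono fun w hw => hw.2.2
  have e2 : extDeriv (fun w => (pb (chartAt (E d) (P w₀)).symm τ
      (chartAt (E d) (P w₀) (P w))).compContinuousLinearMap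
        (fderiv ℝ (fun w => chartAt (E d) (P w₀) (P w)) w)) w₀ =
      (extDeriv (pb (chartAt (E d) (P w₀)).symm τ)
        (chartAt (E d) (P w₀) (P w₀))).compContinuousLinearMap
        (fderiv ℝ (fun w => chartAt (E d) (P w₀) (P w)) w₀) := by
    refine extDeriv_pullback (r := ∞) ?_ h3 Pool.Agent.Y484.SY.two_le
    exact ((hτ _ _ (chartAt (E d) (P w₀)).open_target hc2).contDiffAt
        ((chartAt (E d) (P w₀)).open_target.mem_nhds hmem)).differentiableAt (by simp)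
  rw [e1.extDeriv_eq, e2, hc _ _ (chartAt (E d) (P w₀)).open_target hc2 _ hmem]
  rfl

/-- the restriction of the extension is the original form -/
theorem emPull_tl {k : ℕ} {em : X → E n} {P : E n → X}
    (hem : ContMDiff (𝓡 d) 𝓘(ℝ, E n) ∞ em) (hP : ∀ x, ContMDiffAt 𝓘(ℝ, E n) (𝓡 d) ∞ P (em x))
    (hPe : ∀ x, P (em x) = x) (τ : Form d X k) : emPull em (tl P τ) = τ := by
  funext x
  obtain ⟨τ', hτ'⟩ : ∃ τ' : X → (E d) [⋀^Fin k]→L[ℝ] ℝ, ∀ x, τ' x = τ x := ⟨τ, fun _ => rfl⟩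
  have e3 : τ' (P (em x)) = τ' x := by rw [hPe]
  rw [hτ', hτ'] at e3
  have e1 : (P ∘ em) =ᶠ[𝓝 x] id := Eventually.of_forall hPe
  have e2 := mfderiv_comp (I := 𝓡 d) (I' := 𝓘(ℝ, E n)) (I'' := 𝓡 d) x
    ((hP x).mdifferentiableAt (by simp)) ((hem x).mdifferentiableAt (by simp))
  rw [e1.mfderiv_eq, mfderiv_id] at e2
  ext v
  have e4 : ∀ u : E d, mfderiv 𝓘(ℝ, E n) (𝓡 d) P (em x) (mfderiv (𝓡 d) 𝓘(ℝ, E n) em x u) = u :=
    fun u => (congrArg (fun L : E d →L[ℝ] E d => L u) e2).symm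
  have e5 : (fun i => mfderiv 𝓘(ℝ, E n) (𝓡 d) P (em x)
      (mfderiv (𝓡 d) 𝓘(ℝ, E n) em x (v i))) = v := funext fun i => e4 (v i)
  have e6 : emPull em (tl P τ) x v = τ (P (em x)) (fun i => mfderiv 𝓘(ℝ, E n) (𝓡 d) P (em x)
      (mfderiv (𝓡 d) 𝓘(ℝ, E n) em x (v i))) := rfl
  rw [e6, e5]
  exact congrArg (fun A : (E d) [⋀^Fin k]→L[ℝ] ℝ => A v) e3

end Pool.Agent.H24.VD
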