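import Pool.Agent.H24.VD.Smo

/-!
# Translates of closed forms
-/

set_option autoImplicit false
set_option maxSynthPendingDepth 3
set_option linter.unusedSectionVars false

open Metric Set Filter Topology MeasureTheory
open scoped ContDiff Manifold Convolution

noncomputable section

namespace Pool.Agent.H24.VD

variable {W : Type} [NormedAddCommGroup W] [NormedSpace ℝ W] [FiniteDimensional ℝ W]
  [MeasurableSpace W] [BorelSpace W] {k : ℕ}

/-- contraction with a vector -/
def contr (ξ : W) : (W [⋀^Fin (k + 1)]→L[ℝ] ℝ) →L[ℝ] (W [⋀^Fin k]→L[ℝ] ℝ) :=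
  (ContinuousLinearMap.apply ℝ (W [⋀^Fin k]→L[ℝ] ℝ) ξ).comp
    (ContinuousAlternatingMap.curryLeftLI (𝕜 := ℝ) (E := W) (F := ℝ)
      (n := k)).toContinuousLinearMap

theorem contr_apply (ξ : W) (A : W [⋀^Fin (k + 1)]→L[ℝ] ℝ) (v : Fin k → W) :
    contr ξ A v = A (Matrix.vecCons ξ v) := rfl

/-- Cartan's formula for a constant vector field -/
theorem cartan {g : W → W [⋀^Fin (k + 1)]→L[ℝ] ℝ} {w : W} (hg : DifferentiableAt ℝ g w)
    (ξ : W) : extDeriv (fun w => contr ξ (g w)) w + contr ξ (extDeriv g w) = fderiv ℝ g w ξ := by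
  ext v
  have hd : DifferentiableAt ℝ (fun w => contr ξ (g w)) w :=
    (contr ξ).differentiableAt.comp w hg
  have e1 := extDeriv_apply hg (Matrix.vecCons ξ v)
  have e2 := extDeriv_apply hd v
  rw [Fin.sum_univ_succ] at e1
  have e3 : fderiv ℝ (fun x => g x ((0 : Fin (k + 2)).removeNth (Matrix.vecCons ξ v))) w
      (Matrix.vecCons ξ v 0) = fderiv ℝ g w ξ v := by
    have e4 : (0 : Fin (k + 2)).removeNth (Matrix.vecCons ξ v) = v := by
      funext i
      rfl
    rw [e4, fderiv_continuousAlternatingMap_apply_const_apply hg]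
    rfl
  rw [e3] at e1
  have e5 : ∀ i : Fin (k + 1), (i.succ).removeNth (Matrix.vecCons ξ v) =
      Matrix.vecCons ξ (i.removeNth v) := by
    intro i
    funext j
    refine Fin.cases ?_ (fun l => ?_) j
    · rfl
    · simp [Fin.removeNth]
  have e6 : contr ξ (extDeriv g w) v = extDeriv g w (Matrix.vecCons ξ v) := rfl
  have e7 : (extDeriv (fun w => contr ξ (g w)) w + contr ξ (extDeriv g w)) v =
      extDeriv (fun w => contr ξ (g w)) w v + contr ξ (extDeriv g w) v := rfl
  rw [e7, e6, e1, e2]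
  simp only [e5, Fin.val_succ, pow_succ, Matrix.cons_val_succ, Fin.val_zero, pow_zero, one_smul]
  have e8 : ∑ i : Fin (k + 1), (-1) ^ (i : ℕ) •
      fderiv ℝ (fun x => contr ξ (g x) (i.removeNth v)) w (v i) +
      ∑ i : Fin (k + 1), ((-1 : ℤ) ^ (i : ℕ) * -1) •
      fderiv ℝ (fun x => g x (Matrix.vecCons ξ (i.removeNth v))) w (v i) = 0 := by
    rw [← Finset.sum_add_distrib]
    refine Finset.sum_eq_zero fun i _ => ?_
    simp only [contr_apply]
    simp
  linarith [e8]

/-- cut-off of a function which is smooth near a compact set -/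
theorem cutoff {F : Type} [NormedAddCommGroup F] [NormedSpace ℝ F] {K : Set W} (hK : IsCompact K)
    {δ δ' : ℝ} (hδ' : 0 ≤ δ') (hlt : δ' < δ) {G : W → F}
    (hs : ∀ y ∈ K, ∀ w, ‖w - y‖ < δ → ContDiffAt ℝ ∞ G w) :
    ∃ g : W → F, ContDiff ℝ ∞ g ∧ HasCompactSupport g ∧
      ∀ y ∈ K, ∀ w, ‖w - y‖ ≤ δ' → g =ᶠ[𝓝 w] G := by
  have hsub : cthickening δ' K ⊆ interior (cthickening ((δ' + δ) / 2) K) := by
    refine (cthickening_subset_thickening' (by linarith) (by linarith : δ' < (δ' + δ) / 2)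
      K).trans ?_
    exact interior_maximal (thickening_subset_cthickening _ _) isOpen_thickening
  obtain ⟨f, h1, h2, h3⟩ := exists_contMDiffMap_one_nhds_of_subset_interior 𝓘(ℝ, W) (n := ⊤)
    (isClosed_cthickening (δ := δ') (E := K)) hsub
  have hf : ContDiff ℝ ∞ f := contMDiff_iff_contDiff.1 f.contMDiff
  have hcl : IsCompact (cthickening ((δ' + δ) / 2) K) := hK.cthickening
  refine ⟨fun w => f w • G w, ?_, ?_, ?_⟩
  · rw [contDiff_iff_contDiffAt]
    intro w
    by_cases hw : w ∈ cthickening ((δ' + δ) / 2) K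
    · have hw2 : w ∈ thickening δ K :=
        cthickening_subset_thickening' (by linarith) (by linarith) K hw
      rw [mem_thickening_iff] at hw2
      obtain ⟨y, hy, hyw⟩ := hw2
      rw [dist_eq_norm] at hyw
      exact hf.contDiffAt.smul (hs y hy w hyw)
    · have h4 : (fun w => f w • G w) =ᶠ[𝓝 w] fun _ => 0 := by
        filter_upwards [isClosed_cthickening.isOpen_compl.mem_nhds hw] with z hz
        rw [h2 z hz, zero_smul]
      exact contDiffAt_const.congr_of_eventuallyEq h4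
  · refine HasCompactSupport.intro hcl fun w hw => ?_
    rw [h2 w hw, zero_smul]
  · intro y hy w hw
    have hmem : w ∈ cthickening δ' K := by
      refine mem_cthickening_of_dist_le w y δ' K hy ?_
      rwa [dist_eq_norm]
    have h4 := (mem_nhdsSet_iff_forall.1 h1) w hmem
    filter_upwards [h4] with z hz
    have hz' : f z = 1 := hz
    show f z • G z = G z
    rw [hz', one_smul]

/-- averages along a segment -/
def avg {F : Type} [NormedAddCommGroup F] [NormedSpace ℝ F] (ξ : W) (h : W → F) (w : W) : F :=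
  ∫ s in Ioc (0 : ℝ) 1, h (w + s • ξ)

theorem avg_deriv {F : Type} [NormedAddCommGroup F] [NormedSpace ℝ F] [CompleteSpace F]
    (ξ : W) {h : W → F} (hh : ContDiff ℝ 1 h) (hc : HasCompactSupport h) (y : W) :
    HasFDerivAt (avg ξ h) (avg ξ (fderiv ℝ h) y) y := by
  have hprop : ProperSpace W := FiniteDimensional.proper ℝ W
  have hcf := hh.continuous_fderiv one_ne_zero
  have hcont := hh.continuous
  obtain ⟨C, hC⟩ := (hc.fderiv ℝ).exists_bound_of_continuous hcf
  refine hasFDerivAt_integral_of_dominated_of_fderiv_le (s := univ) (bound := fun _ => C)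
    (F := fun w (s : ℝ) => h (w + s • ξ)) (F' := fun w (s : ℝ) => fderiv ℝ h (w + s • ξ))
    univ_mem ?_ ?_ ?_ ?_ ?_ ?_
  · refine Eventually.of_forall fun w => ?_
    have : Continuous fun s : ℝ => h (w + s • ξ) := by fun_prop
    exact this.aestronglyMeasurable
  · have : Continuous fun s : ℝ => h (y + s • ξ) := by fun_prop
    exact this.integrableOn_Ioc
  · have : Continuous fun s : ℝ => fderiv ℝ h (y + s • ξ) := by fun_prop
    exact this.aestronglyMeasurable
  · exact Eventually.of_forall fun s x _ => hC _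
  · exact integrable_const _
  · refine Eventually.of_forall fun s x _ => ?_
    have h1 : HasFDerivAt (fun w : W => w + s • ξ) (ContinuousLinearMap.id ℝ W) x :=
      (hasFDerivAt_id x).add_const _
    have h2 := ((hh.differentiable one_ne_zero) (x + s • ξ)).hasFDerivAt.comp x h1
    exact h2

theorem avg_smooth_nat (ξ : W) (m : ℕ) : ∀ {F : Type} [NormedAddCommGroup F] [NormedSpace ℝ F]
    [CompleteSpace F] {h : W → F}, ContDiff ℝ ∞ h → HasCompactSupport h →
    ContDiff ℝ m (avg ξ h) := by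
  induction m with
  | zero =>
    intro F _ _ _ h hh hc
    have h1 : Continuous (avg ξ h) := continuous_iff_continuousAt.2 fun y =>
      (avg_deriv ξ (hh.of_le (by simp)) hc y).continuousAt
    exact contDiff_zero.2 h1
  | succ m ih =>
    intro F _ _ _ h hh hc
    have h0 : ∀ y, HasFDerivAt (avg ξ h) (avg ξ (fderiv ℝ h) y) y := fun y =>
      avg_deriv ξ (hh.of_le (by simp)) hc y
    have h1 : fderiv ℝ (avg ξ h) = avg ξ (fderiv ℝ h) := funext fun y => (h0 y).fderiv
    have h2 : ContDiff ℝ m (avg ξ (fderiv ℝ h)) :=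
      ih (hh.fderiv_right (m := ∞) (by simp)) (hc.fderiv ℝ)
    rw [Nat.cast_succ]
    rw [contDiff_succ_iff_fderiv]
    refine ⟨fun y => (h0 y).differentiableAt, fun h => ?_, ?_⟩
    · exact absurd h (by simp)
    · rw [h1]
      exact h2

theorem avg_smooth {F : Type} [NormedAddCommGroup F] [NormedSpace ℝ F] [CompleteSpace F]
    (ξ : W) {h : W → F} (hh : ContDiff ℝ ∞ h) (hc : HasCompactSupport h) :
    ContDiff ℝ ∞ (avg ξ h) := contDiff_infty.2 fun m => avg_smooth_nat ξ m hh hc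

/-- translates of closed forms are cohomologous -/
theorem transl_exact {K : Set W} (hK : IsCompact K) {δ : ℝ} {G : W → W [⋀^Fin (k + 1)]→L[ℝ] ℝ}
    (hs : ∀ y ∈ K, ∀ w, ‖w - y‖ < δ → ContDiffAt ℝ ∞ G w)
    (hc : ∀ y ∈ K, ∀ w, ‖w - y‖ < δ → extDeriv G w = 0) {ξ : W} (hξ : ‖ξ‖ < δ) :
    ∃ θ : W → W [⋀^Fin k]→L[ℝ] ℝ, ContDiff ℝ ∞ θ ∧
      ∀ y ∈ K, extDeriv θ y = G (y + ξ) - G y := by
  obtain ⟨g, hg, hgc, hgG⟩ := cutoff hK (norm_nonneg ξ) hξ hs
  obtain ⟨h, hh⟩ : ∃ h : W → W [⋀^Fin k]→L[ℝ] ℝ, h = fun w => contr ξ (g w) := ⟨_, rfl⟩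
  have hhs : ContDiff ℝ ∞ h := by
    rw [hh]
    exact (contr ξ).contDiff.comp hg
  have hhc : HasCompactSupport h := by
    rw [hh]
    exact hgc.comp_left (g := fun A => contr ξ A) (map_zero _)
  refine ⟨avg ξ h, avg_smooth ξ hhs hhc, ?_⟩
  intro y hy
  have hd := avg_deriv ξ (hhs.of_le (by simp)) hhc y
  have hseg : ∀ s ∈ Icc (0 : ℝ) 1, ‖y + s • ξ - y‖ ≤ ‖ξ‖ := by
    intro s hs
    rw [add_sub_cancel_left, norm_smul, Real.norm_eq_abs, abs_of_nonneg hs.1]
    exact mul_le_of_le_one_left (norm_nonneg _) hs.2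
  have hcf := hhs.continuous_fderiv (by simp)
  have hcs : Continuous fun s : ℝ => fderiv ℝ h (y + s • ξ) := by fun_prop
  have e1 : extDeriv (avg ξ h) y = ∫ s in Ioc (0 : ℝ) 1, extDeriv h (y + s • ξ) := by
    unfold extDeriv
    rw [hd.fderiv]
    unfold avg
    exact (ContinuousLinearMap.integral_comp_comm
      (ContinuousAlternatingMap.alternatizeUncurryFinCLM ℝ W ℝ)
      (hcs.integrableOn_Ioc)).symm
  have e2 : ∀ s ∈ Icc (0 : ℝ) 1, extDeriv h (y + s • ξ) = fderiv ℝ g (y + s • ξ) ξ := by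
    intro s hs1
    have e3 := cartan ((hg.differentiable (by simp)) (y + s • ξ)) ξ
    have e4 : extDeriv g (y + s • ξ) = 0 := by
      rw [(hgG y hy _ (hseg s hs1)).extDeriv_eq]
      exact hc y hy _ ((hseg s hs1).trans_lt hξ)
    rw [e4, map_zero, add_zero] at e3
    rw [hh]
    exact e3
  have e5 : ∫ s in Ioc (0 : ℝ) 1, extDeriv h (y + s • ξ) =
      ∫ s in (0 : ℝ)..1, fderiv ℝ g (y + s • ξ) ξ := by
    rw [intervalIntegral.integral_of_le zero_le_one]
    exact setIntegral_congr_fun measurableSet_Ioc fun s hs => e2 s ⟨hs.1.le, hs.2⟩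
  have hgd := hg.continuous_fderiv (by simp)
  have e6 : ∫ s in (0 : ℝ)..1, fderiv ℝ g (y + s • ξ) ξ = g (y + (1 : ℝ) • ξ) - g (y + (0 : ℝ) • ξ) := by
    refine intervalIntegral.integral_eq_sub_of_hasDerivAt (f := fun s : ℝ => g (y + s • ξ)) ?_ ?_
    · intro s _
      have h1 : HasDerivAt (fun s : ℝ => y + s • ξ) ξ s := by
        have h2 := ((hasDerivAt_id s).smul_const ξ).const_add y
        simpa using h2
      exact ((hg.differentiable (by simp)) (y + s • ξ)).hasFDerivAt.comp_hasDerivAt s h1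
    · refine Continuous.intervalIntegrable ?_ 0 1
      fun_prop
  have e7 : g (y + (1 : ℝ) • ξ) = G (y + ξ) := by
    have := (hgG y hy _ (hseg 1 ⟨zero_le_one, le_rfl⟩)).self_of_nhds
    rwa [one_smul] at this ⊢
  have e8 : g (y + (0 : ℝ) • ξ) = G y := by
    have := (hgG y hy _ (hseg 0 ⟨le_rfl, zero_le_one⟩)).self_of_nhds
    rwa [zero_smul, add_zero] at this ⊢
  rw [e1, e5, e6, e7, e8]

end Pool.Agent.H24.VD
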