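import Pool.Agent.H24.VD.Dens
import Pool.Agent.H24.VD.Alg

/-!
# The local estimate
-/

set_option autoImplicit false
set_option maxSynthPendingDepth 3
set_option linter.unusedSectionVars false

open MeasureTheory Metric Set Filter Topology
open scoped ContDiff ENNReal

noncomputable section

namespace Pool.Agent.H24.VD

variable {E : Type} [NormedAddCommGroup E] [InnerProductSpace ℝ E] [FiniteDimensional ℝ E]
  [MeasurableSpace E] [BorelSpace E]
  {W : Type} [NormedAddCommGroup W] [InnerProductSpace ℝ W] [FiniteDimensional ℝ W]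
  [MeasurableSpace W] [BorelSpace W]

/-- from a one-sided almost everywhere bound to a bound of the integral -/
theorem integral_lower {Ω : Type} [MeasurableSpace Ω] {μ : Measure Ω} [IsFiniteMeasure μ]
    {f : Ω → ℝ} (hf : Integrable f μ) {a b : ℝ} (hb : 0 ≤ b) {g : Ω → ℝ≥0∞}
    (hg : ∀ᵐ x ∂μ, ENNReal.ofReal (a - f x) ≤ g x)
    (hgb : ∫⁻ x, g x ∂μ ≤ ENNReal.ofReal b) : a * μ.real univ - b ≤ ∫ x, f x ∂μ := by
  have h1 : Integrable (fun x => a - f x) μ := (integrable_const a).sub hf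
  have h2 := integral_eq_lintegral_pos_part_sub_lintegral_neg_part h1
  have h3 : ∫ x, (a - f x) ∂μ = a * μ.real univ - ∫ x, f x ∂μ := by
    rw [integral_sub (integrable_const a) hf, integral_const, smul_eq_mul, mul_comm]
  have h4 : (∫⁻ x, ENNReal.ofReal (a - f x) ∂μ).toReal ≤ b := by
    have h5 : ∫⁻ x, ENNReal.ofReal (a - f x) ∂μ ≤ ENNReal.ofReal b :=
      (lintegral_mono_ae hg).trans hgb
    exact ENNReal.toReal_le_of_le_ofReal hb h5
  have h6 : 0 ≤ (∫⁻ x, ENNReal.ofReal (-(a - f x)) ∂μ).toReal := ENNReal.toReal_nonneg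
  rw [h3] at h2
  linarith

/-- uniform constants near the base point -/
theorem consts {S : E → W} {F : W → E} {p₀ : E}
    (hS : ContDiffAt ℝ 2 S p₀) (hF : ContDiffAt ℝ 2 F (S p₀)) (hFS : ∀ᶠ p in 𝓝 p₀, F (S p) = p)
    {δ : ℝ} (hδ : 0 < δ) :
    ∃ ρ ρ' L : ℝ, 0 < ρ ∧ 0 < ρ' ∧ ρ' ≤ δ ∧ 1 ≤ L ∧ (∀ w ∈ ball (S p₀) ρ', ContDiffAt ℝ 2 F w) ∧
      ∀ p ∈ ball p₀ ρ, S p ∈ ball (S p₀) (ρ' / 2) ∧ ContDiffAt ℝ 2 S p ∧ F (S p) = p ∧
        ∀ ξ ∈ ball (0 : W) (ρ' / 2), S p + ξ ∈ ball (S p₀) ρ' ∧ ‖F (S p + ξ) - p‖ ≤ L * ‖ξ‖ ∧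
          ‖(fderiv ℝ F (S p + ξ)).comp (fderiv ℝ S p) - ContinuousLinearMap.id ℝ E‖ ≤
            L * ‖ξ‖ := by
  have hF1 : ContDiffAt ℝ 1 (fderiv ℝ F) (S p₀) := hF.fderiv_right (m := 1) (by norm_num)
  obtain ⟨C, t, ht, hC⟩ := hF1.exists_lipschitzOnWith
  have hF2 : ∀ᶠ w in 𝓝 (S p₀), ‖fderiv ℝ F w‖ < ‖fderiv ℝ F (S p₀)‖ + 1 :=
    hF1.continuousAt.norm.eventually_lt_const (by linarith)
  have hF3 : ∀ᶠ w in 𝓝 (S p₀), ContDiffAt ℝ 2 F w := hF.eventually (by simp)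
  obtain ⟨ρ₁, hρ₁, h1⟩ := Metric.eventually_nhds_iff_ball.1 ((eventually_mem_set.2 ht).and
    (hF2.and hF3))
  obtain ⟨ρ', hρ'⟩ : ∃ ρ', ρ' = min ρ₁ δ := ⟨_, rfl⟩
  have hρ'pos : 0 < ρ' := by rw [hρ']; exact lt_min hρ₁ hδ
  have hsub : ball (S p₀) ρ' ⊆ ball (S p₀) ρ₁ := by
    rw [hρ']
    exact ball_subset_ball (min_le_left _ _)
  have hS1 : ContinuousAt (fderiv ℝ S) p₀ :=
    (hS.fderiv_right (m := 1) (by norm_num)).continuousAt
  have hS2 : ∀ᶠ p in 𝓝 p₀, ‖fderiv ℝ S p‖ < ‖fderiv ℝ S p₀‖ + 1 :=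
    hS1.norm.eventually_lt_const (by linarith)
  have hS3 : ∀ᶠ p in 𝓝 p₀, ContDiffAt ℝ 2 S p := hS.eventually (by simp)
  have hS4 : ∀ᶠ p in 𝓝 p₀, S p ∈ ball (S p₀) (ρ' / 2) :=
    hS.continuousAt.eventually_mem (ball_mem_nhds _ (by positivity))
  obtain ⟨ρ₂, hρ₂, h2⟩ := Metric.eventually_nhds_iff_ball.1 (hFS.eventually_nhds.and
    (hS2.and (hS3.and hS4)))
  obtain ⟨LF, hLF⟩ : ∃ LF, LF = ‖fderiv ℝ F (S p₀)‖ + 1 := ⟨_, rfl⟩
  obtain ⟨LS, hLS⟩ : ∃ LS, LS = ‖fderiv ℝ S p₀‖ + 1 := ⟨_, rfl⟩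
  have hLF0 : 0 ≤ LF := by rw [hLF]; positivity
  have hLS0 : 0 ≤ LS := by rw [hLS]; positivity
  rw [← hLF] at h1
  rw [← hLS] at h2
  have hC0 : 0 ≤ (C : ℝ) := C.coe_nonneg
  refine ⟨ρ₂, ρ', 1 + LF + C * LS, hρ₂, hρ'pos, by rw [hρ']; exact min_le_right _ _,
    by nlinarith [mul_nonneg hC0 hLS0], fun w hw => (h1 w (hsub hw)).2.2, ?_⟩
  intro p hp
  obtain ⟨g1, g2, g3, g4⟩ := h2 p hp
  have g0 : F (S p) = p := g1.self_of_nhds
  refine ⟨g4, g3, g0, ?_⟩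
  intro ξ hξ
  have hmem : S p + ξ ∈ ball (S p₀) ρ' := by
    rw [mem_ball_zero_iff] at hξ
    rw [mem_ball, dist_eq_norm] at g4 ⊢
    have e1 : S p + ξ - S p₀ = (S p - S p₀) + ξ := by abel
    rw [e1]
    refine (norm_add_le _ _).trans_lt ?_
    linarith
  have hSp : S p ∈ ball (S p₀) ρ' := ball_subset_ball (by linarith) g4
  refine ⟨hmem, ?_, ?_⟩
  · have h3 : ‖F (S p + ξ) - F (S p)‖ ≤ LF * ‖S p + ξ - S p‖ := by
      refine (convex_ball (S p₀) ρ').norm_image_sub_le_of_norm_hasFDerivWithin_le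
        (f' := fderiv ℝ F) (fun x hx => ((h1 x (hsub hx)).2.2.differentiableAt
          (by norm_num)).hasFDerivAt.hasFDerivWithinAt)
        (fun x hx => (h1 x (hsub hx)).2.1.le) hSp hmem
    rw [g0, add_sub_cancel_left] at h3
    refine h3.trans ?_
    gcongr
    nlinarith [mul_nonneg hC0 hLS0]
  · have h4 : (fderiv ℝ F (S p)).comp (fderiv ℝ S p) = ContinuousLinearMap.id ℝ E := by
      have d1 : HasFDerivAt (fun q => F (S q)) ((fderiv ℝ F (S p)).comp (fderiv ℝ S p)) p :=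
        ((h1 _ (hsub hSp)).2.2.differentiableAt (by norm_num)).hasFDerivAt.comp p
          (g3.differentiableAt (by norm_num)).hasFDerivAt
      have d2 : HasFDerivAt (fun q => F (S q)) (ContinuousLinearMap.id ℝ E) p :=
        (hasFDerivAt_id p).congr_of_eventuallyEq g1
      exact d1.unique d2
    have h5 : (fderiv ℝ F (S p + ξ)).comp (fderiv ℝ S p) - ContinuousLinearMap.id ℝ E =
        (fderiv ℝ F (S p + ξ) - fderiv ℝ F (S p)).comp (fderiv ℝ S p) := by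
      rw [← h4, ContinuousLinearMap.sub_comp]
    rw [h5]
    have h6 : ‖fderiv ℝ F (S p + ξ) - fderiv ℝ F (S p)‖ ≤ C * ‖ξ‖ := by
      have h7 := hC.dist_le_mul _ (h1 _ (hsub hmem)).1 _ (h1 _ (hsub hSp)).1
      rw [dist_eq_norm, dist_eq_norm, add_sub_cancel_left] at h7
      exact h7
    calc ‖(fderiv ℝ F (S p + ξ) - fderiv ℝ F (S p)).comp (fderiv ℝ S p)‖
        ≤ ‖fderiv ℝ F (S p + ξ) - fderiv ℝ F (S p)‖ * ‖fderiv ℝ S p‖ :=
          ContinuousLinearMap.opNorm_comp_le _ _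
      _ ≤ C * ‖ξ‖ * LS := by
          gcongr
      _ = C * LS * ‖ξ‖ := by ring
      _ ≤ _ := by
          gcongr
          linarith

omit [FiniteDimensional ℝ E] [MeasurableSpace E] [BorelSpace E] [InnerProductSpace ℝ E] in
theorem cont_alt [NormedSpace ℝ E] {X : Type} [TopologicalSpace X]
    {A : X → E [⋀^Fin 2]→L[ℝ] ℝ} {u v : X → E} {s : Set X} (hA : ContinuousOn A s)
    (hu : ContinuousOn u s) (hv : ContinuousOn v s) :
    ContinuousOn (fun x => A x ![u x, v x]) s := by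
  have h1 : ContinuousOn (fun x => ![u x, v x]) s := by
    refine continuousOn_pi.2 fun i => ?_
    fin_cases i
    · exact hu
    · exact hv
  exact hA.eval h1

theorem sum3 {a b c x y z : ℝ} (ha : 0 ≤ a) (hb : 0 ≤ b) (hc : 0 ≤ c) (hx : 0 ≤ x) (hy : 0 ≤ y)
    (hz : 0 ≤ z) : a * x + b * y + c * z ≤ (a + b + c) * (x + y + z) := by
  have h1 := mul_nonneg ha hy
  have h2 := mul_nonneg ha hz
  have h3 := mul_nonneg hb hx
  have h4 := mul_nonneg hb hz
  have h5 := mul_nonneg hc hx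
  have h6 := mul_nonneg hc hy
  linarith

set_option maxHeartbeats 1000000 in
theorem local_pos {ι : Type} {l : Filter ι} {S : E → W} {F : W → E} {p₀ : E}
    (hS : ContDiffAt ℝ 2 S p₀) (hF : ContDiffAt ℝ 2 F (S p₀)) (hFS : ∀ᶠ p in 𝓝 p₀, F (S p) = p)
    {N : Set E} (hN : N ∈ 𝓝 p₀) {Jh : E → E →L[ℝ] E} {α CJ : ℝ} (hα : 0 < α) (hα1 : α ≤ 1)
    (hCJ : 0 ≤ CJ)
    (hJ : ∀ p ∈ N, ∀ q ∈ N, ‖Jh p - Jh q‖ ≤ CJ * ‖p - q‖ ^ α)
    {r : ι → ℝ} (hr : Tendsto r l (𝓝[>] 0))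
    {τ T : ι → E → E [⋀^Fin 2]→L[ℝ] ℝ} {h : ι → E → ℝ}
    (hτ : ∀ i, ContinuousOn (τ i) N)
    (hTm : ∀ i, AEStronglyMeasurable (T i) (volume.restrict N))
    (hhm : ∀ i, AEMeasurable (h i) (volume.restrict N))
    {lam : ι → E → ℝ} (hlm : ∀ i, AEMeasurable (lam i) (volume.restrict N))
    {c K : ℝ} (hc : 0 < c)
    (hgood : ∀ i, ∀ᵐ q ∂(volume.restrict N), 0 ≤ h i q ∧ c ≤ lam i q ∧
      (∀ u, lam i q * ‖u‖ ^ 2 ≤ T i q ![u, Jh q u]) ∧
      ∀ u v, |T i q ![u, v]| ≤ K * √(T i q ![u, Jh q u]) * √(T i q ![v, Jh q v]) +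
        h i q * ‖u‖ * ‖v‖)
    (hsm : ∀ δ : ℝ, 0 < δ → ∃ N₃ ∈ 𝓝 p₀, ∀ ε : ℝ, 0 < ε → ∀ᶠ i in l, ∀ p ∈ N₃,
      ∫⁻ q in ball p (r i), ENNReal.ofReal (r i ^ (2 * α) * ‖T i q‖ + r i ^ α * h i q +
        ‖τ i q - T i q‖ - δ * lam i q) ≤ ENNReal.ofReal ε * volume (ball p (r i))) :
    ∃ a₀ : ℝ, 0 < a₀ ∧ ∃ N' ∈ 𝓝 p₀, ∀ a, 0 < a → a ≤ a₀ → ∀ᶠ i in l, ∀ p ∈ N', ∀ u : E, u ≠ 0 →
      0 < ∫ ξ in ball (0 : W) (a * r i), τ i (F (S p + ξ))
        ![fderiv ℝ F (S p + ξ) (fderiv ℝ S p u), fderiv ℝ F (S p + ξ) (fderiv ℝ S p (Jh p u))] := by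
  have hι : (fderiv ℝ F (S p₀)).comp (fderiv ℝ S p₀) = ContinuousLinearMap.id ℝ E := by
    have d1 : HasFDerivAt (fun q => F (S q)) ((fderiv ℝ F (S p₀)).comp (fderiv ℝ S p₀)) p₀ :=
      (hF.differentiableAt (by norm_num)).hasFDerivAt.comp p₀
        (hS.differentiableAt (by norm_num)).hasFDerivAt
    have d2 : HasFDerivAt (fun q => F (S q)) (ContinuousLinearMap.id ℝ E) p₀ :=
      (hasFDerivAt_id p₀).congr_of_eventuallyEq hFS
    exact d1.unique d2
  obtain ⟨δ, C, hδ, hC, hd⟩ := dens2 (hF.of_le (by norm_num)) (fderiv ℝ S p₀) hι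
  obtain ⟨ρ, ρ', L, hρ, hρ', hρδ, hL, hFd, hcs⟩ := consts hS hF hFS hδ
  obtain ⟨B, hB⟩ : ∃ B, B = 1 + ‖Jh p₀‖ + CJ := ⟨_, rfl⟩
  have hB1 : 1 ≤ B := by rw [hB]; linarith [norm_nonneg (Jh p₀)]
  have hB0 : 0 < B := by linarith
  obtain ⟨Cη, hCη⟩ : ∃ Cη, Cη = 2 * B * L + CJ * L := ⟨_, rfl⟩
  have hCη0 : 0 ≤ Cη := by rw [hCη]; positivity
  obtain ⟨C₄, hC₄⟩ : ∃ C₄, C₄ = K ^ 2 * B * Cη ^ 2 + 2 * Cη + 4 * B := ⟨_, rfl⟩
  have hC₄0 : 0 < C₄ := by rw [hC₄]; positivity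
  obtain ⟨N₃, hN₃, hsm⟩ := hsm (1 / (16 * C₄)) (by positivity)
  obtain ⟨ρN₀, hρN₀, hNsub₀⟩ := Metric.mem_nhds_iff.1 (inter_mem hN hN₃)
  obtain ⟨ρN, hρN, hρN1, hNsub'⟩ : ∃ ρN : ℝ, 0 < ρN ∧ ρN ≤ 1 / 2 ∧ ball p₀ (2 * ρN) ⊆ N ∩ N₃ := by
    refine ⟨min (ρN₀ / 2) (1 / 2), lt_min (by positivity) (by norm_num), min_le_right _ _,
      (ball_subset_ball ?_).trans hNsub₀⟩
    have := min_le_left (ρN₀ / 2) (1 / 2 : ℝ)
    linarith
  have hNsub : ball p₀ (2 * ρN) ⊆ N := hNsub'.trans inter_subset_left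
  have hp₀N : p₀ ∈ N := mem_of_mem_nhds hN
  have hJB : ∀ p ∈ ball p₀ (2 * ρN), ‖Jh p‖ ≤ B := by
    intro p hp
    have h1 := hJ p (hNsub hp) p₀ hp₀N
    rw [mem_ball, dist_eq_norm] at hp
    have h2 : ‖p - p₀‖ ^ α ≤ 1 := Real.rpow_le_one (norm_nonneg _) (by linarith) hα.le
    have h3 : ‖Jh p‖ ≤ ‖Jh p - Jh p₀‖ + ‖Jh p₀‖ := by
      have := norm_add_le (Jh p - Jh p₀) (Jh p₀)
      rwa [sub_add_cancel] at this
    have h4 : CJ * ‖p - p₀‖ ^ α ≤ CJ * 1 := by gcongr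
    rw [hB]
    linarith
  refine ⟨min 1 (1 / C), lt_min one_pos (by positivity), ball p₀ (min ρ ρN),
    ball_mem_nhds _ (lt_min hρ hρN), ?_⟩
  intro a ha ha₀
  have ha1 : a ≤ 1 := ha₀.trans (min_le_left _ _)
  have haC : C * a ≤ 1 := by
    have := ha₀.trans (min_le_right _ _)
    rw [le_div_iff₀ hC] at this
    linarith
  obtain ⟨m, hm⟩ : ∃ m, m = Module.finrank ℝ E := ⟨_, rfl⟩
  obtain ⟨ε, hε⟩ : ∃ ε, ε = c * a ^ m / (32 * C₄ * C) := ⟨_, rfl⟩
  have hε0 : 0 < ε := by rw [hε]; positivity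
  have hr0 : ∀ᶠ i in l, 0 < r i := hr.eventually self_mem_nhdsWithin
  have hrlt : ∀ b : ℝ, 0 < b → ∀ᶠ i in l, r i < b := fun b hb =>
    (hr.mono_right nhdsWithin_le_nhds).eventually_lt_const hb
  filter_upwards [hr0, hrlt 1 one_pos, hrlt δ hδ, hrlt (ρ' / 2) (by positivity),
    hrlt (1 / (2 * L)) (by positivity), hrlt (ρN / L) (by positivity), hsm ε hε0]
    with i i0 i1 i2 i3 i4 i5 i6
  intro p hp u hu
  have hLr : L * r i < ρN := by
    rw [lt_div_iff₀ (by positivity)] at i5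
    linarith
  have hLr2 : L * r i ≤ 1 / 2 := by
    rw [lt_div_iff₀ (by positivity)] at i4
    linarith
  have hrL : r i ≤ L * r i := le_mul_of_one_le_left i0.le hL
  have hpρ : p ∈ ball p₀ ρ := ball_subset_ball (min_le_left _ _) hp
  have hpn : ‖p - p₀‖ < ρN := by
    have := ball_subset_ball (min_le_right ρ ρN) hp
    rwa [mem_ball, dist_eq_norm] at this
  have hpN : p ∈ ball p₀ (2 * ρN) := by
    rw [mem_ball, dist_eq_norm]
    linarith
  obtain ⟨g1, g2, g3, g4⟩ := hcs p hpρ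
  have har : 0 < a * r i := by positivity
  have har1 : a * r i ≤ r i := by nlinarith
  have hcb : ∀ ξ ∈ closedBall (0 : W) (a * r i), ξ ∈ ball (0 : W) (ρ' / 2) := by
    intro ξ hξ
    rw [mem_closedBall_zero_iff] at hξ
    rw [mem_ball_zero_iff]
    linarith
  have hq : ∀ ξ ∈ closedBall (0 : W) (a * r i), F (S p + ξ) ∈ ball p₀ (2 * ρN) ∧
      ‖F (S p + ξ) - p‖ ≤ L * r i := by
    intro ξ hξ
    have h1 := (g4 ξ (hcb ξ hξ)).2.1
    have hξ' : ‖ξ‖ ≤ a * r i := mem_closedBall_zero_iff.1 hξ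
    have h2 : L * ‖ξ‖ ≤ L * r i := by gcongr; linarith
    refine ⟨?_, h1.trans h2⟩
    rw [mem_ball, dist_eq_norm]
    have e1 : F (S p + ξ) - p₀ = (F (S p + ξ) - p) + (p - p₀) := by abel
    rw [e1]
    refine (norm_add_le _ _).trans_lt ?_
    linarith
  have hballN : ball p (r i) ⊆ ball p₀ (2 * ρN) := by
    intro q hq
    rw [mem_ball, dist_eq_norm] at hq ⊢
    have e1 : q - p₀ = (q - p) + (p - p₀) := by abel
    rw [e1]
    refine (norm_add_le _ _).trans_lt ?_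
    linarith
  have hCr : C * (a * r i) ≤ r i := by
    calc C * (a * r i) = (C * a) * r i := by ring
      _ ≤ 1 * r i := by gcongr
      _ = r i := one_mul _
  have hball2 : ball p (C * (a * r i)) ⊆ ball p (r i) := ball_subset_ball hCr
  have hball3 : ball p (C * (a * r i)) ⊆ N := hball2.trans (hballN.trans hNsub)
  have hSδ : S p ∈ ball (S p₀) δ := ball_subset_ball (by linarith) g1
  obtain ⟨k1, k2, k3⟩ := hd (S p) hSδ (a * r i) har (by linarith)
  rw [g3] at k1 k2 k3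
  -- the integrand
  obtain ⟨f, hf⟩ : ∃ f : W → ℝ, f = fun ξ => τ i (F (S p + ξ))
        ![fderiv ℝ F (S p + ξ) (fderiv ℝ S p u), fderiv ℝ F (S p + ξ) (fderiv ℝ S p (Jh p u))] :=
    ⟨_, rfl⟩
  have hfc : ContinuousOn f (closedBall 0 (a * r i)) := by
    rw [hf]
    have c1 : ContinuousOn (fun ξ : W => S p + ξ) (closedBall 0 (a * r i)) := by fun_prop
    have c2 : ContinuousOn F (ball (S p₀) ρ') := fun w hw => (hFd w hw).continuousAt.continuousWithinAt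
    have c3 : ContinuousOn (fderiv ℝ F) (ball (S p₀) ρ') := fun w hw =>
      ((hFd w hw).fderiv_right (m := 1) (by norm_num)).continuousAt.continuousWithinAt
    have c4 : MapsTo (fun ξ : W => S p + ξ) (closedBall 0 (a * r i)) (ball (S p₀) ρ') :=
      fun ξ hξ => (g4 ξ (hcb ξ hξ)).1
    have c5 : ContinuousOn (fun ξ : W => fderiv ℝ F (S p + ξ)) (closedBall 0 (a * r i)) :=
      c3.comp c1 c4
    refine cont_alt ?_ (c5.clm_apply continuousOn_const) (c5.clm_apply continuousOn_const)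
    exact (hτ i).comp (c2.comp c1 c4) fun ξ hξ => hNsub (hq ξ hξ).1
  have hfi : Integrable f (volume.restrict (ball (0 : W) (a * r i))) := by
    have := (hfc.integrableOn_compact (μ := volume) (isCompact_closedBall 0 (a * r i)))
    exact this.mono_set ball_subset_closedBall
  -- the error term
  obtain ⟨G, hG⟩ : ∃ G : E → ℝ, G = fun q => r i ^ (2 * α) * ‖T i q‖ + r i ^ α * h i q +
      ‖τ i q - T i q‖ - 1 / (16 * C₄) * lam i q := ⟨_, rfl⟩
  have hGm : AEMeasurable G (volume.restrict (ball p (C * (a * r i)))) := by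
    have m1 : AEStronglyMeasurable (T i) (volume.restrict (ball p (C * (a * r i)))) :=
      (hTm i).mono_set hball3
    have m2 : AEMeasurable (h i) (volume.restrict (ball p (C * (a * r i)))) :=
      (hhm i).mono_set hball3
    have m3 : AEStronglyMeasurable (τ i) (volume.restrict (ball p (C * (a * r i)))) :=
      ((hτ i).mono hball3).aestronglyMeasurable measurableSet_ball
    have m4 : AEMeasurable (lam i) (volume.restrict (ball p (C * (a * r i)))) :=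
      (hlm i).mono_set hball3
    rw [hG]
    exact (((m1.norm.aemeasurable.const_mul _).add (m2.const_mul _)).add
      (m3.sub m1).norm.aemeasurable).sub (m4.const_mul _)
  have hk3 := k3 (fun q => ENNReal.ofReal (G q)) hGm.ennreal_ofReal
  have hr2 : (r i ^ α) ^ 2 = r i ^ (2 * α) := by
    rw [← Real.rpow_natCast, ← Real.rpow_mul i0.le]
    congr 1
    push_cast
    ring
  -- the pointwise bound
  have hae : ∀ᵐ ξ ∂(volume.restrict (ball (0 : W) (a * r i))),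
      ENNReal.ofReal (c / 16 * ‖u‖ ^ 2 - f ξ) ≤
        ENNReal.ofReal (C₄ * ‖u‖ ^ 2) * ENNReal.ofReal (G (F (S p + ξ))) := by
    have n1 := k2 _ (ae_restrict_of_ae_restrict_of_subset hball3 (hgood i))
    filter_upwards [n1, ae_restrict_mem measurableSet_ball] with ξ hξ hξb
    obtain ⟨hh, hlamc, hpos, hcs'⟩ := hξ
    have hlam0 : 0 < lam i (F (S p + ξ)) := hc.trans_le hlamc
    have hξc : ξ ∈ closedBall (0 : W) (a * r i) := ball_subset_closedBall hξb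
    obtain ⟨q1, q2⟩ := hq ξ hξc
    have hξn : ‖ξ‖ ≤ r i := by
      have := mem_closedBall_zero_iff.1 hξc
      linarith
    have hM := (g4 ξ (hcb ξ hξc)).2.2
    have hM1 : ‖(fderiv ℝ F (S p + ξ)).comp (fderiv ℝ S p) - ContinuousLinearMap.id ℝ E‖ ≤
        L * r i := hM.trans (by gcongr)
    obtain ⟨M, hMd⟩ : ∃ M, M = (fderiv ℝ F (S p + ξ)).comp (fderiv ℝ S p) := ⟨_, rfl⟩
    rw [← hMd] at hM1
    have hrα : r i ≤ r i ^ α := by
      have := Real.rpow_le_rpow_of_exponent_ge i0 i1.le hα1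
      rwa [Real.rpow_one] at this
    have hR : ‖M.comp (Jh p) - (Jh (F (S p + ξ))).comp M‖ ≤ Cη * r i ^ α := by
      have e1 : M.comp (Jh p) - (Jh (F (S p + ξ))).comp M =
          (M - ContinuousLinearMap.id ℝ E).comp (Jh p) + (Jh p - Jh (F (S p + ξ))) -
            (Jh (F (S p + ξ))).comp (M - ContinuousLinearMap.id ℝ E) := by
        ext x
        simp
      have e2 : ‖(M - ContinuousLinearMap.id ℝ E).comp (Jh p)‖ ≤ L * r i * B :=
        (ContinuousLinearMap.opNorm_comp_le _ _).trans (by gcongr; exact hJB p hpN)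
      have e3 : ‖(Jh (F (S p + ξ))).comp (M - ContinuousLinearMap.id ℝ E)‖ ≤ B * (L * r i) :=
        (ContinuousLinearMap.opNorm_comp_le _ _).trans (by gcongr; exact hJB _ q1)
      have e4 : ‖Jh p - Jh (F (S p + ξ))‖ ≤ CJ * (L * r i ^ α) := by
        refine (hJ p (hNsub hpN) _ (hNsub q1)).trans ?_
        rw [norm_sub_rev]
        gcongr
        calc ‖F (S p + ξ) - p‖ ^ α ≤ (L * r i) ^ α := by gcongr
          _ = L ^ α * r i ^ α := Real.mul_rpow (by linarith) i0.le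
          _ ≤ L * r i ^ α := by
            gcongr
            have := Real.rpow_le_rpow_of_exponent_le hL hα1
            rwa [Real.rpow_one] at this
      rw [e1]
      refine (norm_sub_le _ _).trans ?_
      have e5 := norm_add_le ((M - ContinuousLinearMap.id ℝ E).comp (Jh p))
        (Jh p - Jh (F (S p + ξ)))
      have e6 : L * r i * B ≤ L * r i ^ α * B := by gcongr
      rw [hCη]
      nlinarith
    have key := pointwise (τ := τ i (F (S p + ξ))) hlam0 hh hB1 (by positivity) (hJB p hpN)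
      (hJB _ q1) (hM1.trans hLr2) hR hpos hcs' u
    have hfξ : f ξ = τ i (F (S p + ξ)) ![M u, M (Jh p u)] := by
      rw [hf, hMd]
      rfl
    rw [← hfξ] at key
    rw [← ENNReal.ofReal_mul (by positivity)]
    refine ENNReal.ofReal_le_ofReal ?_
    have hGξ : G (F (S p + ξ)) = r i ^ (2 * α) * ‖T i (F (S p + ξ))‖ +
        r i ^ α * h i (F (S p + ξ)) + ‖τ i (F (S p + ξ)) - T i (F (S p + ξ))‖ -
          1 / (16 * C₄) * lam i (F (S p + ξ)) := by rw [hG]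
    obtain ⟨x1, hx1⟩ : ∃ x1, x1 = r i ^ (2 * α) * ‖T i (F (S p + ξ))‖ := ⟨_, rfl⟩
    obtain ⟨x2, hx2⟩ : ∃ x2, x2 = r i ^ α * h i (F (S p + ξ)) := ⟨_, rfl⟩
    obtain ⟨x3, hx3⟩ : ∃ x3, x3 = ‖τ i (F (S p + ξ)) - T i (F (S p + ξ))‖ := ⟨_, rfl⟩
    have hx10 : 0 ≤ x1 := by rw [hx1]; positivity
    have hx20 : 0 ≤ x2 := by rw [hx2]; positivity
    have hx30 : 0 ≤ x3 := by rw [hx3]; positivity
    have e7 : K ^ 2 * B * ((Cη * r i ^ α) ^ 2 * ‖T i (F (S p + ξ))‖) +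
        2 * (Cη * r i ^ α * h i (F (S p + ξ))) + 4 * B * ‖τ i (F (S p + ξ)) -
          T i (F (S p + ξ))‖ ≤ C₄ * G (F (S p + ξ)) + 1 / 16 * lam i (F (S p + ξ)) := by
      rw [mul_pow, hr2, hGξ, ← hx1, ← hx2, ← hx3]
      have e0 : C₄ * (x1 + x2 + x3 - 1 / (16 * C₄) * lam i (F (S p + ξ))) +
          1 / 16 * lam i (F (S p + ξ)) = C₄ * (x1 + x2 + x3) := by
        field_simp
        ring
      rw [e0]
      have e8 : K ^ 2 * B * (Cη ^ 2 * r i ^ (2 * α) * ‖T i (F (S p + ξ))‖) =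
          K ^ 2 * B * Cη ^ 2 * x1 := by rw [hx1]; ring
      have e9 : 2 * (Cη * r i ^ α * h i (F (S p + ξ))) = 2 * Cη * x2 := by rw [hx2]; ring
      rw [e8, e9, hC₄]
      have y1 : 0 ≤ K ^ 2 * B * Cη ^ 2 := by positivity
      have y2 : 0 ≤ 2 * Cη := by positivity
      have y3 : 0 ≤ 4 * B := by positivity
      exact sum3 y1 y2 y3 hx10 hx20 hx30
    have hu2 : 0 ≤ ‖u‖ ^ 2 := by positivity
    have e10 := mul_le_mul_of_nonneg_right e7 hu2
    have e11 := mul_le_mul_of_nonneg_right hlamc hu2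
    nlinarith
  -- the integral of the error term
  have hvE : volume (ball (0 : E) (a * r i)) =
      ENNReal.ofReal (a ^ m) * volume (ball (0 : E) (r i)) := by
    rw [hm]
    exact Measure.addHaar_ball_mul_of_pos _ _ ha _
  have hvp : volume (ball p (r i)) = volume (ball (0 : E) (r i)) := by
    exact Measure.addHaar_ball_center _ _ _
  obtain ⟨V, hV⟩ : ∃ V : ℝ, V = (volume (ball (0 : W) (a * r i))).toReal := ⟨_, rfl⟩
  have hVfin : volume (ball (0 : W) (a * r i)) = ENNReal.ofReal V := by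
    rw [hV, ENNReal.ofReal_toReal measure_ball_lt_top.ne]
  have hV0 : 0 < V := by
    rw [hV]
    exact ENNReal.toReal_pos (measure_ball_pos _ _ har).ne' measure_ball_lt_top.ne
  have herr : ∫⁻ ξ in ball (0 : W) (a * r i), ENNReal.ofReal (G (F (S p + ξ))) ≤
      ENNReal.ofReal (C * ε / a ^ m * V) := by
    have s1 : ∫⁻ q in ball p (C * (a * r i)), ENNReal.ofReal (G q) ≤
        ENNReal.ofReal ε * volume (ball (0 : E) (r i)) := by
      refine (lintegral_mono_set hball2).trans ?_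
      rw [← hvp, hG]
      exact i6 p (hNsub' hpN).2
    have s2 : ENNReal.ofReal (a ^ m) * volume (ball (0 : E) (r i)) *
        ∫⁻ ξ in ball (0 : W) (a * r i), ENNReal.ofReal (G (F (S p + ξ))) ≤
        ENNReal.ofReal C * ENNReal.ofReal V * (ENNReal.ofReal ε * volume (ball (0 : E) (r i))) := by
      rw [← hvE, ← hVfin]
      exact hk3.trans (by gcongr)
    have hv0 : volume (ball (0 : E) (r i)) ≠ 0 := (measure_ball_pos _ _ i0).ne'
    have hvt : volume (ball (0 : E) (r i)) ≠ ⊤ := measure_ball_lt_top.ne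
    have ham : ENNReal.ofReal (a ^ m) ≠ 0 := by
      rw [ne_eq, ENNReal.ofReal_eq_zero, not_le]
      positivity
    have s3 : (ENNReal.ofReal (a ^ m) * volume (ball (0 : E) (r i))) *
        ∫⁻ ξ in ball (0 : W) (a * r i), ENNReal.ofReal (G (F (S p + ξ))) ≤
        (ENNReal.ofReal (a ^ m) * volume (ball (0 : E) (r i))) *
          ENNReal.ofReal (C * ε / a ^ m * V) := by
      refine s2.trans (le_of_eq ?_)
      have s4 : ENNReal.ofReal C * ENNReal.ofReal V * ENNReal.ofReal ε =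
          ENNReal.ofReal (a ^ m) * ENNReal.ofReal (C * ε / a ^ m * V) := by
        rw [← ENNReal.ofReal_mul hC.le, ← ENNReal.ofReal_mul (by positivity),
          ← ENNReal.ofReal_mul (by positivity)]
        congr 1
        field_simp
      calc _ = (ENNReal.ofReal C * ENNReal.ofReal V * ENNReal.ofReal ε) *
            volume (ball (0 : E) (r i)) := by ring
        _ = _ := by rw [s4]; ring
    exact (ENNReal.mul_le_mul_iff_right (mul_ne_zero ham hv0)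
      (ENNReal.mul_ne_top ENNReal.ofReal_ne_top hvt)).1 s3
  have herr2 : ∫⁻ ξ in ball (0 : W) (a * r i), ENNReal.ofReal (C₄ * ‖u‖ ^ 2) *
      ENNReal.ofReal (G (F (S p + ξ))) ≤ ENNReal.ofReal (c / 32 * ‖u‖ ^ 2 * V) := by
    rw [lintegral_const_mul' _ _ ENNReal.ofReal_ne_top]
    refine (mul_le_mul_right herr _).trans (le_of_eq ?_)
    rw [← ENNReal.ofReal_mul (by positivity)]
    congr 1
    rw [hε]
    field_simp
  have hfin : IsFiniteMeasure (volume.restrict (ball (0 : W) (a * r i))) :=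
    ⟨by rw [Measure.restrict_apply_univ]; exact measure_ball_lt_top⟩
  have hlow := integral_lower hfi (b := c / 32 * ‖u‖ ^ 2 * V) (by positivity) hae herr2
  have hreal : (volume.restrict (ball (0 : W) (a * r i))).real univ = V := by
    rw [measureReal_def, Measure.restrict_apply_univ, hV]
  rw [hreal] at hlow
  have hu0 : 0 < ‖u‖ := norm_pos_iff.2 hu
  have hfinal : 0 < ∫ ξ in ball (0 : W) (a * r i), f ξ := by
    refine lt_of_lt_of_le ?_ hlow
    have : 0 < c / 32 * ‖u‖ ^ 2 * V := by positivity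
    nlinarith
  rw [hf] at hfinal
  exact hfinal

end Pool.Agent.H24.VD
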