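import Pool.Agent.H24.VD.Wrk
import Pool.Agent.H24.VD.Loc
import Pool.Agent.H24.VD.Frm
import Pool.Agent.H24.VD.Hom
import Pool.Agent.H24.VD.Comb
import Pool.Graph.R_pool_sql_team_seeded_63374d34.N824.CN.Proj
import Pool.Graph.R_seed8.Y455.SY.Pert

/-!
# From the local estimate to the theorem
-/

set_option autoImplicit false
set_option maxSynthPendingDepth 3
set_option linter.unusedSectionVars false

open MeasureTheory Metric Set Filter Topology
open scoped ContDiff ENNReal Manifold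

noncomputable section

namespace Pool.Agent.H24.VD

open Pool.Agent.Y501.SY

variable {d n : ℕ} {X : Type} [TopologicalSpace X] [ChartedSpace (E d) X]
  [IsManifold (𝓡 d) ∞ X]

theorem two_le_inf : (2 : WithTop ℕ∞) ≤ ((⊤ : ℕ∞) : WithTop ℕ∞) :=
  WithTop.coe_le_coe.2 (le_top : (2 : ℕ∞) ≤ ⊤)

/-- the embedding in the chart at `x₀` -/
def emc (em : X → E n) (x₀ : X) : E d → E n := fun p => em ((chartAt (E d) x₀).symm p)

theorem emc_smooth {em : X → E n} (hem : ContMDiff (𝓡 d) 𝓘(ℝ, E n) ∞ em) (x₀ : X) :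
    ContDiffOn ℝ ∞ (emc em x₀) (chartAt (E d) x₀).target :=
  em_comp hem contMDiffOn_chart_symm

/-- the integrand -/
def ig (P : E n → X) (em : X → E n) (J : End d X) (x₀ : X) (τ : Form d X 2) (ξ : E n)
    (p u : E d) : ℝ :=
  tl P τ (emc em x₀ p + ξ) ![fderiv ℝ (emc em x₀) p u, fderiv ℝ (emc em x₀) p (inChart J x₀ p u)]

theorem near_point {em : X → E n} {P : E n → X} (hem : ContMDiff (𝓡 d) 𝓘(ℝ, E n) ∞ em)
    (hPe : ∀ y, P (em y) = y)
    (hP : ∀ y, ∀ᶠ w in 𝓝 (em y), ContMDiffAt 𝓘(ℝ, E n) (𝓡 d) ∞ P w)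
    {J : End d X} {α : ℝ} (hα : 0 < α) (hα1 : α ≤ 1) (hJ : LocallyHolder α J)
    {ι : Type} {l : Filter ι} {r : ι → ℝ} {T τ : ι → Form d X 2}
    (hr : Tendsto r l (𝓝[>] 0)) (hτ : ∀ i, IsSmooth (τ i))
    (hT : ∀ x₀, ControlledNear α J l r T τ x₀) (x₀ : X) :
    ∃ a₀ ρ : ℝ, 0 < a₀ ∧ 0 < ρ ∧
      closedBall (chartAt (E d) x₀ x₀) ρ ⊆ (chartAt (E d) x₀).target ∧
      ContinuousOn (inChart J x₀) (closedBall (chartAt (E d) x₀ x₀) ρ) ∧
      ∀ a, 0 < a → a ≤ a₀ → ∀ᶠ i in l, ∀ p ∈ closedBall (chartAt (E d) x₀ x₀) ρ, ∀ u, u ≠ 0 →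
        0 < ∫ ξ in ball (0 : E n) (a * r i), ig P em J x₀ (τ i) ξ p u := by
  obtain ⟨c, hc⟩ : ∃ c, c = chartAt (E d) x₀ := ⟨_, rfl⟩
  obtain ⟨p₀, hp₀⟩ : ∃ p₀, p₀ = c x₀ := ⟨_, rfl⟩
  have hcs : x₀ ∈ c.source := by rw [hc]; exact mem_chart_source _ _
  have hp₀t : p₀ ∈ c.target := by rw [hp₀]; exact c.map_source hcs
  have hsym : c.symm p₀ = x₀ := by rw [hp₀]; exact c.left_inv hcs
  obtain ⟨S, hS⟩ : ∃ S, S = emc (d := d) em x₀ := ⟨_, rfl⟩
  obtain ⟨F, hF⟩ : ∃ F : E n → E d, F = fun w => c (P w) := ⟨_, rfl⟩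
  have hSe : ∀ p, S p = em (c.symm p) := fun p => by rw [hS, hc]; rfl
  have hS₀ : S p₀ = em x₀ := by rw [hSe, hsym]
  have hSs : ContDiffOn ℝ ∞ S c.target := by
    rw [hS, hc]
    exact emc_smooth hem x₀
  have hSp : ContDiffAt ℝ ∞ S p₀ := hSs.contDiffAt (c.open_target.mem_nhds hp₀t)
  -- the good set
  have hPx : ContMDiffAt 𝓘(ℝ, E n) (𝓡 d) ∞ P (em x₀) := (hP x₀).self_of_nhds
  have hO : ∀ᶠ w in 𝓝 (S p₀), ContMDiffAt 𝓘(ℝ, E n) (𝓡 d) ∞ P w ∧ P w ∈ c.source := by
    rw [hS₀]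
    refine (hP x₀).and ?_
    refine hPx.continuousAt.eventually_mem (c.open_source.mem_nhds ?_)
    rw [hPe]
    exact hcs
  have hFt : ∀ w, ContMDiffAt 𝓘(ℝ, E n) (𝓡 d) ∞ P w ∧ P w ∈ c.source → ContDiffAt ℝ ∞ F w := by
    rintro w ⟨w1, w2⟩
    rw [hF, hc]
    rw [hc] at w2
    exact (tl_at w2 w1 (τ := (0 : Form d X 0))).1
  have hFS : ∀ᶠ p in 𝓝 p₀, F (S p) = p := by
    filter_upwards [c.open_target.mem_nhds hp₀t] with p hp
    rw [hF, hSe]
    show c (P (em (c.symm p))) = p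
    rw [hPe, c.right_inv hp]
  obtain ⟨N₁, hN₁, CJ, hCJ⟩ := hJ x₀
  obtain ⟨N₂, hN₂, c', K, lam, h, hc', hgood, hm⟩ := hT x₀
  rw [← hc, ← hp₀] at hN₁ hN₂ hm
  have hN : N₁ ∩ N₂ ∩ c.target ∈ 𝓝 p₀ :=
    inter_mem (inter_mem hN₁ hN₂) (c.open_target.mem_nhds hp₀t)
  have hloc := local_pos (l := l) (hSp.of_le two_le_inf) ((hFt _ hO.self_of_nhds).of_le two_le_inf)
    hFS hN (Jh := inChart J x₀) hα hα1 (le_max_right CJ 0)
    (by
      intro p hp q hq
      refine (hCJ p hp.1.1 q hq.1.1).trans ?_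
      have : 0 ≤ ‖p - q‖ ^ α := by positivity
      gcongr
      exact le_max_left _ _) hr (τ := fun i => loc (τ i) x₀) (T := fun i => loc (T i) x₀)
    (h := h)
    (by
      intro i
      have h1 := (hτ i c.target c.symm c.open_target (by rw [hc]; exact contMDiffOn_chart_symm))
      have h2 : ContinuousOn (loc (τ i) x₀) c.target := by
        rw [hc] at h1 ⊢
        exact h1.continuousOn
      exact h2.mono inter_subset_right)
    (fun i => (hgood i).1.1.mono_set fun p hp => hp.1.2)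
    (fun i => (hgood i).1.2.2.mono_set fun p hp => hp.1.2)
    (lam := lam)
    (fun i => (hgood i).1.2.1.mono_set fun p hp => hp.1.2) hc'
    (fun i => ae_restrict_of_ae_restrict_of_subset (fun p hp => hp.1.2) (hgood i).2)
    (fun δ hδ => hm δ hδ)
  obtain ⟨a₀, ha₀, N', hN', hpos⟩ := hloc
  obtain ⟨ρO, hρO, hOb⟩ := Metric.eventually_nhds_iff_ball.1 hO
  have hS4 : ∀ᶠ p in 𝓝 p₀, S p ∈ ball (S p₀) (ρO / 2) :=
    hSp.continuousAt.eventually_mem (ball_mem_nhds _ (by positivity))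
  obtain ⟨ρ, hρ, hρsub⟩ := Metric.nhds_basis_closedBall.mem_iff.1
    (inter_mem (inter_mem hN' hN) hS4)
  refine ⟨a₀, ρ, ha₀, hρ, ?_, ?_, ?_⟩
  · rw [← hc, ← hp₀]
    exact fun p hp => (hρsub hp).1.2.2
  · rw [← hc, ← hp₀]
    intro p hp
    have hpN := (hρsub hp).1.2.1.1
    refine Metric.continuousWithinAt_iff.2 fun ε hε => ?_
    have h1 : Tendsto (fun t : ℝ => (max CJ 0) * t ^ α) (𝓝 0) (𝓝 ((max CJ 0) * 0 ^ α)) :=
      ((Real.continuousAt_rpow_const 0 α (Or.inr hα.le)).tendsto).const_mul _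
    rw [Real.zero_rpow hα.ne', mul_zero] at h1
    obtain ⟨δ, hδ, hδb⟩ := Metric.eventually_nhds_iff.1 (h1.eventually_lt_const hε)
    refine ⟨δ, hδ, fun {q} hq hqd => ?_⟩
    have hqN := (hρsub hq).1.2.1.1
    rw [dist_eq_norm] at hqd ⊢
    have h2 := hCJ q hqN p hpN
    have h3 := hδb (y := ‖q - p‖) (by rw [dist_eq_norm, sub_zero, norm_norm]; exact hqd)
    have h4 : 0 ≤ ‖q - p‖ ^ α := by positivity
    have h5 : CJ * ‖q - p‖ ^ α ≤ max CJ 0 * ‖q - p‖ ^ α := by
      gcongr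
      exact le_max_left _ _
    linarith
  · intro a ha haa
    have hr2 : ∀ᶠ i in l, a * r i < ρO / 2 := by
      have h1 : Tendsto (fun i => a * r i) l (𝓝 (a * 0)) :=
        (hr.mono_right nhdsWithin_le_nhds).const_mul a
      rw [mul_zero] at h1
      exact h1.eventually_lt_const (by positivity)
    filter_upwards [hpos a ha haa, hr2] with i hi hri
    intro p hp u hu
    rw [← hc, ← hp₀] at hp
    have h1 := hi p (hρsub hp).1.1 u hu
    refine h1.trans_eq (setIntegral_congr_fun measurableSet_ball fun ξ hξ => ?_)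
    have hw : S p + ξ ∈ ball (S p₀) ρO := by
      have g4 : S p ∈ ball (S p₀) (ρO / 2) := (hρsub hp).2
      rw [mem_ball_zero_iff] at hξ
      rw [mem_ball, dist_eq_norm] at g4 ⊢
      have e1 : S p + ξ - S p₀ = (S p - S p₀) + ξ := by abel
      rw [e1]
      refine (norm_add_le _ _).trans_lt ?_
      linarith
    obtain ⟨w1, w2⟩ := hOb _ hw
    rw [hc] at w2
    have h2 := (tl_at w2 w1 (τ i)).2
    have h3 : ig P em J x₀ (τ i) ξ p u = tl P (τ i) (S p + ξ)
        ![fderiv ℝ S p u, fderiv ℝ S p (inChart J x₀ p u)] := by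
      rw [hS]
      rfl
    show loc (τ i) x₀ (F (S p + ξ)) ![fderiv ℝ F (S p + ξ) (fderiv ℝ S p u),
      fderiv ℝ F (S p + ξ) (fderiv ℝ S p (inChart J x₀ p u))] = ig P em J x₀ (τ i) ξ p u
    rw [h3, h2, ContinuousAlternatingMap.compContinuousLinearMap_apply, hF, hc]
    unfold loc
    congr 1
    funext j
    fin_cases j <;> rfl

theorem transl_smooth {V F : Type} [NormedAddCommGroup V] [NormedSpace ℝ V]
    [NormedAddCommGroup F] [NormedSpace ℝ F] {G : V → F} {w z : V}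
    (h : ContDiffAt ℝ ∞ G (w + z)) : ContDiffAt ℝ ∞ (fun w => G (w + z)) w := by
  have h1 : ContDiffAt ℝ ∞ (fun w : V => w + z) w := contDiffAt_id.add contDiffAt_const
  exact ContDiffAt.comp w h h1

theorem tube_ev {em : X → E n} {P : E n → X} {δ : ℝ}
    (hP : ∀ y w, ‖w - em y‖ < δ → ContMDiffAt 𝓘(ℝ, E n) (𝓡 d) ∞ P w) {y : X} {w : E n}
    (hw : ‖w - em y‖ < δ) : ∀ᶠ w' in 𝓝 w, ContMDiffAt 𝓘(ℝ, E n) (𝓡 d) ∞ P w' := by
  have h1 : ∀ᶠ w' in 𝓝 w, ‖w' - em y‖ < δ := by
    have h2 : ContinuousAt (fun w' => ‖w' - em y‖) w := by fun_prop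
    exact h2.eventually_lt_const hw
  exact h1.mono fun w' hw' => hP y w' hw'

theorem Q_emPull {em : X → E n} (hem : ContMDiff (𝓡 d) 𝓘(ℝ, E n) ∞ em)
    (η : E n → (E n) [⋀^Fin 2]→L[ℝ] ℝ) (J : End d X) (x₀ : X) {p : E d}
    (hp : p ∈ (chartAt (E d) x₀).target) (u : E d) :
    Pool.Agent.Y455.SY.Q (emPull em η) J x₀ p u = η (emc em x₀ p)
      ![fderiv ℝ (emc em x₀) p u, fderiv ℝ (emc em x₀) p (inChart J x₀ p u)] := by
  unfold Pool.Agent.Y455.SY.Q
  rw [pb_emPull hem η (chartAt (E d) x₀).open_target contMDiffOn_chart_symm hp,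
    ContinuousAlternatingMap.compContinuousLinearMap_apply]
  unfold emc
  congr 1
  funext j
  fin_cases j <;> rfl

variable (n) in
/-- a closed ball -/
abbrev Xi (s : ℝ) : Type := closedBall (0 : E n) s

variable (d) in
/-- pairs of a point of a closed ball in a chart and a unit vector -/
abbrev SpT (ρ : X → ℝ) (j : X) : Type :=
  (closedBall (chartAt (E d) j j) (ρ j)) × (sphere (0 : E d) 1)

set_option maxHeartbeats 1000000 in
theorem comb_tames [CompactSpace X] {em : X → E n} {P : E n → X}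
    (hem : ContMDiff (𝓡 d) 𝓘(ℝ, E n) ∞ em) (hPe : ∀ y, P (em y) = y) {δ : ℝ}
    (hP : ∀ y w, ‖w - em y‖ < δ → ContMDiffAt 𝓘(ℝ, E n) (𝓡 d) ∞ P w) (hδ : 0 < δ)
    {J : End d X} {τ : Form d X 2} (hτ : IsSmooth τ) (hτc : IsClosedForm τ)
    (t : Finset X) (ρ : X → ℝ)
    (hsub : ∀ j ∈ t, closedBall (chartAt (E d) j j) (ρ j) ⊆ (chartAt (E d) j).target)
    (hJ : ∀ j ∈ t, ContinuousOn (inChart J j) (closedBall (chartAt (E d) j j) (ρ j)))
    (hcov : ∀ x : X, ∃ j ∈ t, x ∈ (chartAt (E d) j).source ∧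
      chartAt (E d) j x ∈ closedBall (chartAt (E d) j j) (ρ j)) {s : ℝ} (hs : 0 < s) (hsδ : s < δ)
    (hpos : ∀ j ∈ t, ∀ p ∈ closedBall (chartAt (E d) j j) (ρ j), ∀ u, u ≠ 0 →
      0 < ∫ ξ in ball (0 : E n) s, ig P em J j τ ξ p u) : ClassTames τ J := by
  classical
  -- the extended form on the tube
  have hts : ∀ y w, ‖w - em y‖ < δ → ContDiffAt ℝ ∞ (tl P τ) w := fun y w hw =>
    tl_smooth (tube_ev hP hw) hτ
  have htc : ∀ y w, ‖w - em y‖ < δ → extDeriv (tl P τ) w = 0 := fun y w hw =>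
    tl_closed (tube_ev hP hw) hτ hτc
  have hcont : ContinuousOn (tl P τ) {w | ∃ y, ‖w - em y‖ < δ} := by
    rintro w ⟨y, hw⟩
    exact (hts y w hw).continuousAt.continuousWithinAt
  -- the parameters
  let G : ∀ j : t, Xi n s → SpT d ρ (j : X) → ℝ := fun j ξ z =>
    ig P em J (j : X) τ (ξ : E n) (z.1 : E d) (z.2 : E d)
  have hΞ : CompactSpace (Xi n s) := isCompact_iff_compactSpace.1 (isCompact_closedBall _ _)
  have hSp : ∀ j : t, CompactSpace (SpT d ρ (j : X)) := by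
    intro j
    have h1 : CompactSpace (closedBall (chartAt (E d) (j : X) (j : X)) (ρ j)) :=
      isCompact_iff_compactSpace.1 (isCompact_closedBall _ _)
    have h2 : CompactSpace (sphere (0 : E d) 1) :=
      isCompact_iff_compactSpace.1 (isCompact_sphere _ _)
    exact inferInstanceAs (CompactSpace (_ × _))
  have hG : ∀ j : t, Continuous (fun z : Xi n s × SpT d ρ (j : X) => G j z.1 z.2) := by
    intro j
    have hpj : ∀ z : Xi n s × SpT d ρ (j : X), (z.2.1 : E d) ∈ (chartAt (E d) (j : X)).target := fun z =>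
      hsub j j.2 z.2.1.2
    have c0 : Continuous fun z : Xi n s × SpT d ρ (j : X) => (z.2.1 : E d) := by fun_prop
    have c1 : Continuous fun z : Xi n s × SpT d ρ (j : X) => (z.1 : E n) := by fun_prop
    have c2 : Continuous fun z : Xi n s × SpT d ρ (j : X) => (z.2.2 : E d) := by fun_prop
    have c3 : Continuous fun z : Xi n s × SpT d ρ (j : X) => emc (d := d) em (j : X) (z.2.1 : E d) :=
      (emc_smooth hem (j : X)).continuousOn.comp_continuous c0 hpj
    have c4 : Continuous fun z : Xi n s × SpT d ρ (j : X) => fderiv ℝ (emc (d := d) em (j : X)) (z.2.1 : E d) :=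
      ((emc_smooth hem (j : X)).continuousOn_fderiv_of_isOpen
        (chartAt (E d) (j : X)).open_target (by simp)).comp_continuous c0 hpj
    have c5 : Continuous fun z : Xi n s × SpT d ρ (j : X) => inChart J (j : X) (z.2.1 : E d) :=
      (hJ j j.2).comp_continuous c0 fun z => z.2.1.2
    have c6 : Continuous fun z : Xi n s × SpT d ρ (j : X) => tl P τ (emc (d := d) em (j : X) (z.2.1 : E d) + z.1) := by
      refine hcont.comp_continuous (c3.add c1) fun z => ?_
      refine ⟨(chartAt (E d) (j : X)).symm (z.2.1 : E d), ?_⟩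
      have h1 : emc (d := d) em (j : X) (z.2.1 : E d) + (z.1 : E n) -
          em ((chartAt (E d) (j : X)).symm (z.2.1 : E d)) = (z.1 : E n) := by
        unfold emc
        abel
      rw [h1]
      have h2 := z.1.2
      rw [mem_closedBall_zero_iff] at h2
      exact h2.trans_lt hsδ
    have c7 := cont_alt (E := E n) (s := univ) c6.continuousOn (c4.clm_apply c2).continuousOn
      (c4.clm_apply (c5.clm_apply c2)).continuousOn
    exact continuousOn_univ.1 c7
  obtain ⟨μ, hμ⟩ : ∃ μ : Measure (Xi n s), μ = Measure.comap Subtype.val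
    (volume.restrict (ball (0 : E n) s)) := ⟨_, rfl⟩
  have hint : ∀ f : E n → ℝ, ∫ ξ : Xi n s, f ξ ∂μ = ∫ ξ in ball (0 : E n) s, f ξ := by
    intro f
    rw [hμ]
    have h1 := integral_subtype_comap (μ := volume.restrict (ball (0 : E n) s))
      (measurableSet_closedBall (x := (0 : E n)) (ε := s)) f
    refine h1.trans ?_
    rw [Measure.restrict_restrict measurableSet_closedBall,
      inter_eq_self_of_subset_right ball_subset_closedBall]
  have hfin₀ : IsFiniteMeasure (volume.restrict (ball (0 : E n) s)) :=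
    ⟨by rw [Measure.restrict_apply_univ]; exact measure_ball_lt_top⟩
  have hμuniv : μ univ = volume (ball (0 : E n) s) := by
    rw [hμ, comap_subtype_coe_apply measurableSet_closedBall, image_univ, Subtype.range_coe,
      Measure.restrict_apply measurableSet_closedBall,
      inter_eq_self_of_subset_right ball_subset_closedBall]
  have hfin : IsFiniteMeasure μ := ⟨by rw [hμuniv]; exact measure_ball_lt_top⟩
  have hne : NeZero μ := ⟨by
    intro h0
    have h1 := hμuniv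
    rw [h0] at h1
    exact (measure_ball_pos volume (0 : E n) hs).ne h1⟩
  obtain ⟨m, hm, w, z, hw0, hw1, hwz⟩ := exists_comb (μ := μ) G hG (by
    intro j q
    have h1 := hint fun ξ => ig P em J (j : X) τ ξ (q.1 : E d) (q.2 : E d)
    refine lt_of_lt_of_eq (hpos j j.2 q.1 q.1.2 q.2 ?_) h1.symm
    have h2 := q.2.2
    intro h3
    rw [h3] at h2
    simp at h2)
  -- the primitives
  have hK : IsCompact (range em) := isCompact_range hem.continuous
  have hz : ∀ i, ‖(z i : E n)‖ < δ := fun i => by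
    have h2 := (z i).2
    rw [mem_closedBall_zero_iff] at h2
    exact h2.trans_lt hsδ
  have hex : ∀ i, ∃ θ : E n → (E n) [⋀^Fin 1]→L[ℝ] ℝ, ContDiff ℝ ∞ θ ∧
      ∀ y ∈ range em, extDeriv θ y = tl P τ (y + (z i : E n)) - tl P τ y := fun i =>
    transl_exact hK (G := tl P τ)
      (by rintro _ ⟨y, rfl⟩ w hw; exact hts y w hw)
      (by rintro _ ⟨y, rfl⟩ w hw; exact htc y w hw) (hz i)
  choose θ hθs hθd using hex
  obtain ⟨η, hη⟩ : ∃ η : m → E n → (E n) [⋀^Fin 2]→L[ℝ] ℝ, η = fun i w =>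
    tl P τ (w + (z i : E n)) - tl P τ w := ⟨_, rfl⟩
  have hηe : ∀ i w, η i w = tl P τ (w + (z i : E n)) - tl P τ w := fun i w => by rw [hη]
  have hx0 : ∀ x : X, ‖em x - em x‖ < δ := fun x => by rw [sub_self, norm_zero]; exact hδ
  have hxz : ∀ (x : X) i, ‖em x + (z i : E n) - em x‖ < δ := fun x i => by
    rw [add_sub_cancel_left]; exact hz i
  have hηs : ∀ i x, ContDiffAt ℝ ∞ (η i) (em x) := by
    intro i x
    have h1 : ContDiffAt ℝ ∞ (fun w => tl P τ (w + (z i : E n))) (em x) :=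
      transl_smooth (hts x _ (hxz x i))
    have h2 : η i = fun w => tl P τ (w + (z i : E n)) - tl P τ w := by rw [hη]
    rw [h2]
    exact h1.sub (hts x _ (hx0 x))
  have hηc : ∀ i x, extDeriv (η i) (em x) = 0 := by
    intro i x
    have h1 : DifferentiableAt ℝ (fun w => tl P τ (w + (z i : E n))) (em x) :=
      (transl_smooth (hts x _ (hxz x i))).differentiableAt (by simp)
    have h2 : η i = fun w => tl P τ (w + (z i : E n)) - tl P τ w := by rw [hη]
    have h3 : DifferentiableAt ℝ (tl P τ) (em x) := (hts x _ (hx0 x)).differentiableAt (by simp)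
    have h4 := htc x _ (hxz x i)
    have h5 := htc x _ (hx0 x)
    unfold extDeriv at h4 h5 ⊢
    rw [h2, fderiv_fun_sub h1 h3, fderiv_comp_add_right]
    have h6 : ∀ A B : E n →L[ℝ] (E n) [⋀^Fin 2]→L[ℝ] ℝ,
        ContinuousAlternatingMap.alternatizeUncurryFin (A - B) =
        ContinuousAlternatingMap.alternatizeUncurryFin A -
          ContinuousAlternatingMap.alternatizeUncurryFin B := fun A B =>
      map_sub (ContinuousAlternatingMap.alternatizeUncurryFinCLM ℝ (E n) ℝ) A B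
    rw [h6, h4, h5, sub_zero]
  have hβs : ∀ i, IsSmooth (d := d) (emPull em (θ i)) := fun i =>
    emPull_smooth hem fun x => (hθs i).contDiffAt
  have hρs : ∀ i, IsSmooth (d := d) (emPull em (η i)) := fun i =>
    emPull_smooth hem fun x => hηs i x
  have hD : ∀ i, IsD (d := d) (emPull em (θ i)) (emPull em (η i)) := fun i =>
    emPull_isD hem (fun x => (hθs i).contDiffAt) fun x => by
      rw [hηe]
      exact hθd i _ (mem_range_self x)
  have hC : ∀ i, IsClosedForm (d := d) (emPull em (η i)) := by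
    intro i
    have h1 := emPull_isD (d := d) hem (hηs i) (η := 0) fun x => hηc i x
    have h2 : emPull (d := d) em (0 : E n → (E n) [⋀^Fin (2 + 1)]→L[ℝ] ℝ) = 0 := by
      funext x
      ext v
      rfl
    rw [h2] at h1
    exact h1
  have hsumD : ∀ u : Finset m, IsD (d := d) (∑ i ∈ u, w i • emPull em (θ i))
      (∑ i ∈ u, w i • emPull em (η i)) ∧ IsClosedForm (d := d) (∑ i ∈ u, w i • emPull em (η i)) := by
    intro u
    induction u using Finset.induction_on with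
    | empty =>
      rw [Finset.sum_empty, Finset.sum_empty]
      exact ⟨IsD.zero, IsD.zero⟩
    | insert a u ha ih =>
      rw [Finset.sum_insert ha, Finset.sum_insert ha]
      refine ⟨((hD a).smul (w a)).add ih.1 ((hβs a).smul (w a))
        (IsSmooth.sum u fun i _ => (hβs i).smul (w i)), ?_⟩
      have h1 := IsD.add ((hC a).smul (w a)) ih.2 ((hρs a).smul (w a))
        (IsSmooth.sum u fun i _ => (hρs i).smul (w i))
      rw [smul_zero, add_zero] at h1
      exact h1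
  have hβS : IsSmooth (d := d) (∑ i, w i • emPull em (θ i)) :=
    IsSmooth.sum _ fun i _ => (hβs i).smul (w i)
  have hρS : IsSmooth (d := d) (∑ i, w i • emPull em (η i)) :=
    IsSmooth.sum _ fun i _ => (hρs i).smul (w i)
  obtain ⟨hDD, hCC⟩ := hsumD Finset.univ
  have hem_tl : emPull em (tl P τ) = τ :=
    emPull_tl hem (fun x => hP x _ (hx0 x)) hPe τ
  have hQ : ∀ j ∈ t, ∀ p ∈ closedBall (chartAt (E d) j j) (ρ j), ∀ u ∈ sphere (0 : E d) 1,
      0 < Pool.Agent.Y455.SY.Q (τ + ∑ i, w i • emPull em (η i)) J j p u := by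
    intro j hj p hp u hu
    have hpt := hsub j hj hp
    rw [Pool.Agent.Y455.SY.Q_sum]
    have h1 : Pool.Agent.Y455.SY.Q τ J j p u = tl P τ (emc em j p)
        ![fderiv ℝ (emc em j) p u, fderiv ℝ (emc em j) p (inChart J j p u)] := by
      have := Q_emPull hem (tl P τ) J j hpt u
      rwa [hem_tl] at this
    obtain ⟨A, hA⟩ : ∃ A, A = Pool.Agent.Y455.SY.Q τ J j p u := ⟨_, rfl⟩
    have h2 : ∀ i, Pool.Agent.Y455.SY.Q (emPull em (η i)) J j p u =
        ig P em J j τ (z i : E n) p u - A := by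
      intro i
      rw [Q_emPull hem (η i) J j hpt u, hA, h1, hηe]
      rfl
    have h3 : ∑ i, w i * Pool.Agent.Y455.SY.Q (emPull em (η i)) J j p u =
        ∑ i, w i * ig P em J j τ (z i : E n) p u - A := by
      simp only [h2, mul_sub]
      rw [Finset.sum_sub_distrib, ← Finset.sum_mul, hw1, one_mul]
    rw [h3, ← hA]
    have h4 := hwz ⟨j, hj⟩ (⟨p, hp⟩, ⟨u, hu⟩)
    have h5 : ∑ i, w i * G ⟨j, hj⟩ (z i) (⟨p, hp⟩, ⟨u, hu⟩) =
        ∑ i, w i * ig P em J j τ (z i : E n) p u := rfl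
    rw [h5] at h4
    linarith
  have htames : ∀ x, TamesAt (τ + ∑ i, w i • emPull em (η i)) J x := by
    intro x
    obtain ⟨j, hj, hx1, hx2⟩ := hcov x
    have hpt := (chartAt (E d) j).map_source hx1
    have h1 := (Pool.Agent.Y455.SY.tames_iff (τ + ∑ i, w i • emPull em (η i)) J j hpt).2
      ((Pool.Agent.Y455.SY.pos_iff _ fun s v => Pool.Agent.Y455.SY.Q_smul _ J j _ v s).2
        fun v hv => hQ j hj _ hx2 v hv)
    rwa [(chartAt (E d) j).left_inv hx1] at h1
  refine ⟨∑ i, w i • emPull em (θ i), ∑ i, w i • emPull em (η i), hβS, hρS, hDD, ?_⟩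
  refine ⟨hτ.add hρS, ?_, ?_, htames⟩
  · have h1 := IsD.add hτc hCC hτ hρS
    rw [add_zero] at h1
    exact h1
  · intro x v hv
    by_contra hne
    have h1 := htames x v hne
    rw [hv] at h1
    exact lt_irrefl _ h1

end Pool.Agent.H24.VD
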