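import Pool.Graph.R_seed8.Y501.SY.Pub

/-!
# Definitions

`X` is a smooth manifold modelled on `V`, in the theorem `V = ES d` is the Euclidean space of
dimension `d`. Forms (`Form`), their pull-backs `pb`, smooth forms (`IsSmooth`), exterior
derivatives (`IsD`), closed forms (`IsClosedForm`), fields of endomorphisms of the tangent
bundle (`End`), their expression `inChart J x₀` in the chart at `x₀`, and symplectic forms taming a
field of endomorphisms (`IsTamingSymplectic`) are defined in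
`Pool/Graph/R_seed8/Y501/SY/Pub.lean`.
-/

set_option autoImplicit false

open Set Filter Topology MeasureTheory Metric
open scoped Manifold ContDiff ENNReal

noncomputable section

namespace Pool.Agent.H24.VDP

open Pool.Agent.Y501.SYP

/-- Lebesgue measure on the Euclidean space `ES d` -/
def leb (d : ℕ) : Measure (ES d) := (volume : Measure (EuclideanSpace ℝ (Fin d)))

section

variable {V : Type} [NormedAddCommGroup V] [NormedSpace ℝ V]
  {X : Type} [TopologicalSpace X] [ChartedSpace V X]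

/-- The class of the closed form `τ` contains a symplectic form `σ` with `σ (v, J v) > 0` for all
nonzero tangent vectors `v`. -/
def ClassTames (τ : Form V X 2) (J : End V X) : Prop :=
  ∃ (β : Form V X 1) (ρ : Form V X 2), IsSmooth β ∧ IsSmooth ρ ∧ IsD β ρ ∧
    IsTamingSymplectic (addF τ ρ) J

/-- the coefficients of the form `σ` in the chart at `x₀` -/
def loc {k : ℕ} (σ : Form V X k) (x₀ : X) : V → V [⋀^Fin k]→L[ℝ] ℝ :=
  pb (chartAt V x₀).symm σ

/-- The field `J` of endomorphisms of the tangent spaces is locally Hölder continuous with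
exponent `α`. -/
def LocallyHolder (α : ℝ) (J : End V X) : Prop :=
  ∀ x₀ : X, ∃ N ∈ 𝓝 (chartAt V x₀ x₀), ∃ C : ℝ, ∀ p ∈ N, ∀ q ∈ N, ∀ v : V,
    ‖inChart J x₀ p v - inChart J x₀ q v‖ ≤ C * ‖p - q‖ ^ α * ‖v‖

/-- the number `A (u, J u)` -/
def quad (A : V [⋀^Fin 2]→L[ℝ] ℝ) (J : V → V) (u : V) : ℝ := A ![u, J u]

/-- `A (u, J u) ≥ lam |u|²` and `|A (u, v)| ≤ K (A (u, J u) A (v, J v)) ^ (1/2) + h |u| |v|`
for all vectors `u`, `v`. -/
def NearlyOneOneAt (A : V [⋀^Fin 2]→L[ℝ] ℝ) (J : V → V) (lam K h : ℝ) : Prop :=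
  (∀ u, lam * ‖u‖ ^ 2 ≤ quad A J u) ∧
    ∀ u v, |A ![u, v]| ≤ K * √(quad A J u) * √(quad A J v) + h * ‖u‖ * ‖v‖

/-- The form `A` with measurable coefficients on `N` satisfies almost everywhere
`A (u, J u) ≥ lam |u|²` and `|A (u, v)| ≤ K (A (u, J u) A (v, J v)) ^ (1/2) + h |u| |v|`,
with measurable functions `lam ≥ c` and `h ≥ 0`.
(If `A` is `J`-invariant, i.e. of type `(1,1)`, and `A (u, J u) ≥ c |u|²`, then this holds
with `K = 1`, `lam = c` and `h = 0`.) -/
def NearlyOneOne [MeasurableSpace V] (μ : Measure V) (N : Set V) (A : V → V [⋀^Fin 2]→L[ℝ] ℝ)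
    (J : V → V → V) (c K : ℝ) (lam h : V → ℝ) : Prop :=
  (AEStronglyMeasurable A (μ.restrict N) ∧ AEMeasurable lam (μ.restrict N) ∧
    AEMeasurable h (μ.restrict N)) ∧
  ∀ᵐ p ∂(μ.restrict N), 0 ≤ h p ∧ c ≤ lam p ∧ NearlyOneOneAt (A p) (J p) (lam p) K (h p)

/-- the number `r ^ (2 α) |T| + r ^ α h + |τ - T| - δ lam` -/
def err (α r δ : ℝ) (T τ : V → V [⋀^Fin 2]→L[ℝ] ℝ) (lam h : V → ℝ) (q : V) : ℝ :=
  r ^ (2 * α) * ‖T q‖ + r ^ α * h q + ‖τ q - T q‖ - δ * lam q

/-- The averages of the positive parts of the functions `g i` over the balls of radius `r i` tend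
to zero along `l`, uniformly near `p₀`. -/
def MeansVanish [MeasurableSpace V] (μ : Measure V) {ι : Type} (l : Filter ι) (r : ι → ℝ)
    (g : ι → V → ℝ) (p₀ : V) : Prop :=
  ∃ N ∈ 𝓝 p₀, ∀ ε : ℝ, 0 < ε → ∀ᶠ i in l, ∀ p ∈ N,
    ∫⁻ q in ball p (r i), ENNReal.ofReal (g i q) ∂μ ≤ ENNReal.ofReal ε * μ (ball p (r i))

/-- In the chart at `x₀`, near `x₀`, there are a number `c > 0` and measurable functions
`lam i ≥ c` and `h i ≥ 0` with
`T i (u, J u) ≥ lam i |u|²` and
`|T i (u, v)| ≤ K (T i (u, J u) T i (v, J v)) ^ (1/2) + h i |u| |v|` almost everywhere, such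
that for every `δ > 0` the averages of the positive part of
`(r i) ^ (2 α) |T i| + (r i) ^ α h i + |τ i - T i| - δ lam i` over the balls of radius `r i` tend to
zero, uniformly near `x₀`. -/
def ControlledNear [MeasurableSpace V] (μ : Measure V) (α : ℝ) (J : End V X) {ι : Type}
    (l : Filter ι) (r : ι → ℝ) (T τ : ι → Form V X 2) (x₀ : X) : Prop :=
  ∃ N ∈ 𝓝 (chartAt V x₀ x₀), ∃ (c K : ℝ) (lam h : ι → V → ℝ), 0 < c ∧
    (∀ i, NearlyOneOne μ N (loc (T i) x₀) (inChart J x₀) c K (lam i) (h i)) ∧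
    ∀ δ : ℝ, 0 < δ → MeansVanish μ l r
      (fun i => err α (r i) δ (loc (T i) x₀) (loc (τ i) x₀) (lam i) (h i)) (chartAt V x₀ x₀)

end

end Pool.Agent.H24.VDP
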