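import Pool.Graph.R_seed8.Y501.SY.Defs

/-!
# Definitions

`X` is a smooth manifold modelled on `E d = EuclideanSpace ℝ (Fin d)`. Forms (`Form`), smooth forms
(`IsSmooth`), exterior derivatives (`IsD`), closed forms (`IsClosedForm`), fields of endomorphisms
of the tangent bundle (`End`), their expression `inChart J x₀` in the chart at `x₀`, and
`TamesAt` are defined in `Pool/Graph/R_seed8/Y501/SY/Defs.lean`.
-/

set_option autoImplicit false

open Set Filter Topology MeasureTheory Metric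
open scoped Manifold ContDiff ENNReal

noncomputable section

namespace Pool.Agent.H24.VD

open Pool.Agent.Y501.SY

section

variable {d : ℕ} {X : Type} [TopologicalSpace X] [ChartedSpace (E d) X]

/-- `σ` is a symplectic form with `σ (v, J v) > 0` for all nonzero tangent vectors `v`. -/
structure IsTamingSymplectic (σ : Form d X 2) (J : End d X) : Prop where
  smooth : IsSmooth σ
  closed : IsClosedForm σ
  nondeg : ∀ (x : X) (v : TangentSpace (𝓡 d) x), (∀ w, σ x ![v, w] = 0) → v = 0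
  tames : ∀ x, TamesAt σ J x

/-- The class of the closed form `τ` contains a symplectic form which tames `J`. -/
def ClassTames (τ : Form d X 2) (J : End d X) : Prop :=
  ∃ (β : Form d X 1) (ρ : Form d X 2), IsSmooth β ∧ IsSmooth ρ ∧ IsD β ρ ∧
    IsTamingSymplectic (τ + ρ) J

/-- the coefficients of the form `σ` in the chart at `x₀` -/
def loc {k : ℕ} (σ : Form d X k) (x₀ : X) : E d → (E d) [⋀^Fin k]→L[ℝ] ℝ :=
  pb (chartAt (E d) x₀).symm σ

/-- The field `J` of endomorphisms of the tangent spaces is locally Hölder continuous with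
exponent `α`. -/
def LocallyHolder (α : ℝ) (J : End d X) : Prop :=
  ∀ x₀ : X, ∃ N ∈ 𝓝 (chartAt (E d) x₀ x₀), ∃ C : ℝ, ∀ p ∈ N, ∀ q ∈ N,
    ‖inChart J x₀ p - inChart J x₀ q‖ ≤ C * ‖p - q‖ ^ α

/-- `A (u, J u) ≥ lam |u|²` and `|A (u, v)| ≤ K (A (u, J u) A (v, J v)) ^ (1/2) + h |u| |v|`
for all vectors `u`, `v`. -/
def NearlyOneOneAt (A : (E d) [⋀^Fin 2]→L[ℝ] ℝ) (J : E d →L[ℝ] E d) (lam K h : ℝ) : Prop :=
  (∀ u, lam * ‖u‖ ^ 2 ≤ A ![u, J u]) ∧
    ∀ u v, |A ![u, v]| ≤ K * √(A ![u, J u]) * √(A ![v, J v]) + h * ‖u‖ * ‖v‖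

/-- measurable local data which are nearly of type `(1,1)` -/
def NearlyOneOne (N : Set (E d)) (A : E d → (E d) [⋀^Fin 2]→L[ℝ] ℝ) (J : E d → E d →L[ℝ] E d)
    (c K : ℝ) (lam h : E d → ℝ) : Prop :=
  (AEStronglyMeasurable A (volume.restrict N) ∧ AEMeasurable lam (volume.restrict N) ∧
    AEMeasurable h (volume.restrict N)) ∧
  ∀ᵐ p ∂(volume.restrict N), 0 ≤ h p ∧ c ≤ lam p ∧ NearlyOneOneAt (A p) (J p) (lam p) K (h p)

/-- the number `r ^ (2 α) |T| + r ^ α h + |τ - T| - δ lam` -/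
def err (α r δ : ℝ) (T τ : E d → (E d) [⋀^Fin 2]→L[ℝ] ℝ) (lam h : E d → ℝ) (q : E d) : ℝ :=
  r ^ (2 * α) * ‖T q‖ + r ^ α * h q + ‖τ q - T q‖ - δ * lam q

/-- averages over small balls tend to zero -/
def MeansVanish {ι : Type} (l : Filter ι) (r : ι → ℝ) (g : ι → E d → ℝ) (p₀ : E d) : Prop :=
  ∃ N ∈ 𝓝 p₀, ∀ ε : ℝ, 0 < ε → ∀ᶠ i in l, ∀ p ∈ N,
    ∫⁻ q in ball p (r i), ENNReal.ofReal (g i q) ≤ ENNReal.ofReal ε * volume (ball p (r i))

/-- the hypothesis near `x₀` -/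
def ControlledNear (α : ℝ) (J : End d X) {ι : Type} (l : Filter ι) (r : ι → ℝ)
    (T τ : ι → Form d X 2) (x₀ : X) : Prop :=
  ∃ N ∈ 𝓝 (chartAt (E d) x₀ x₀), ∃ (c K : ℝ) (lam h : ι → E d → ℝ), 0 < c ∧
    (∀ i, NearlyOneOne N (loc (T i) x₀) (inChart J x₀) c K (lam i) (h i)) ∧
    ∀ δ : ℝ, 0 < δ → MeansVanish l r
      (fun i => err α (r i) δ (loc (T i) x₀) (loc (τ i) x₀) (lam i) (h i)) (chartAt (E d) x₀ x₀)

end

end Pool.Agent.H24.VD
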